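import Pool.Agent.Helper45.Eng.ModCase

set_option autoImplicit false

/-!
Uniformity by a product argument, and maximal abelian normal subgroups.
-/

namespace Pool.Agent.Helper45.Eng

open scoped commutatorElement

/-- The data of a group acting on an `r`-generated module with soluble kernel, generated by `d`
left `n`-Engel elements. -/
structure Dat (n d r s : ℕ) where
  R : Type
  instR : CommRing R
  M : Type
  instM : AddCommGroup M
  instMod : Module R M
  b : Fin r → M
  hb : Submodule.span R (Set.range b) = ⊤
  G : Type
  instG : Group G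
  x : Fin d → G
  hx : Subgroup.closure (Set.range x) = ⊤
  hE : ∀ i, LEngel n (x i)
  ρ : G →* Module.End R M
  hker : derivedSeries ρ.ker s = ⊥

attribute [instance] Dat.instR Dat.instM Dat.instMod Dat.instG

theorem uniform (n d r s : ℕ) : ∃ N : ℕ, ∀ D : Dat n d r s,
    Group.IsNilpotent D.G ∧ Group.nilpotencyClass D.G ≤ N := by
  classical
  by_contra hcon
  push Not at hcon
  choose D hD using hcon
  let R' := ∀ N, (D N).R
  let M' := ∀ N, (D N).M
  let P := ∀ N, (D N).G
  let b' : Fin r → M' := fun j N => (D N).b j
  have hb' : Submodule.span R' (Set.range b') = ⊤ := by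
    rw [eq_top_iff]
    intro v _
    have h1 : ∀ N, ∃ c : Fin r → (D N).R, ∑ i, c i • (D N).b i = v N := by
      intro N
      have : v N ∈ Submodule.span (D N).R (Set.range (D N).b) := by rw [(D N).hb]; trivial
      exact (Submodule.mem_span_range_iff_exists_fun _).mp this
    choose c hc using h1
    rw [Submodule.mem_span_range_iff_exists_fun]
    refine ⟨fun i N => c N i, ?_⟩
    funext N
    rw [Finset.sum_apply]
    exact hc N
  have hfin : Module.Finite R' M' := ⟨⟨Finset.univ.image b', by simpa using hb'⟩⟩
  let x : Fin d → P := fun i N => (D N).x i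
  have hxE : ∀ i, LEngel n (x i) := by
    intro i y
    funext N
    have h1 := engel_iter_map (Pi.evalMonoidHom (fun N => (D N).G) N) (x i) n y
    change (Pi.evalMonoidHom (fun N => (D N).G) N) _ = 1
    rw [h1]
    exact (D N).hE i _
  let G' : Subgroup P := Subgroup.closure (Set.range x)
  have hxG : ∀ i, x i ∈ G' := fun i => Subgroup.subset_closure ⟨i, rfl⟩
  let S' : Set G' := Set.range (fun i : Fin d => (⟨x i, hxG i⟩ : G'))
  have hS'f : S'.Finite := Set.finite_range _
  have hS' : Subgroup.closure S' = ⊤ := by
    have h1 : (Subgroup.closure S').map G'.subtype = G' := by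
      rw [MonoidHom.map_closure]
      change Subgroup.closure (G'.subtype '' Set.range (fun i : Fin d => (⟨x i, hxG i⟩ : G'))) = _
      rw [← Set.range_comp]
      rfl
    rw [eq_top_iff]
    intro y _
    have h2 : (y : P) ∈ (Subgroup.closure S').map G'.subtype := by rw [h1]; exact y.2
    obtain ⟨z, hz, hzy⟩ := h2
    have : z = y := Subtype.ext hzy
    rwa [← this]
  have hE' : ∀ a ∈ S', ∃ n, LEngel n a := by
    rintro _ ⟨i, rfl⟩
    exact ⟨n, LEngel.of_injective (f := G'.subtype) G'.subtype_injective (hxE i)⟩
  let ρ' : G' →* Module.End R' M' :=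
    { toFun := fun g =>
        { toFun := fun v N => (D N).ρ ((g : P) N) (v N)
          map_add' := by
            intro v w
            funext N
            change (D N).ρ ((g : P) N) (v N + w N) = _
            rw [map_add]; rfl
          map_smul' := by
            intro a v
            funext N
            change (D N).ρ ((g : P) N) (a N • v N) = a N • (D N).ρ ((g : P) N) (v N)
            rw [map_smul] }
      map_one' := by
        ext v N
        change (D N).ρ 1 (v N) = v N
        rw [map_one]; rfl
      map_mul' := by
        intro g h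
        ext v N
        change (D N).ρ ((g : P) N * (h : P) N) (v N) = _
        rw [map_mul]; rfl }
  obtain ⟨m, hm⟩ := module_case S' hS'f hS' hE' ρ'
  -- solubility of G'
  have hker : ∀ j : ℕ, ∀ g ∈ derivedSeries G' (m + j), ∀ N,
      (g : P) N ∈ (derivedSeries (D N).ρ.ker j).map (D N).ρ.ker.subtype := by
    intro j
    induction j with
    | zero =>
      intro g hg N
      have h1 := hm g hg
      rw [derivedSeries_zero, ← MonoidHom.range_eq_map, Subgroup.range_subtype,
        MonoidHom.mem_ker]
      ext v
      have h2 := congrFun (congrArg (fun f : Module.End R' M' => f (Function.update 0 N v)) h1) N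
      have h3 : (D N).ρ ((g : P) N) ((Function.update (0 : M') N v) N) =
        (Function.update (0 : M') N v) N := h2
      simpa using h3
    | succ j ih =>
      intro g hg N
      let ev : G' →* (D N).G := (Pi.evalMonoidHom (fun N => (D N).G) N).comp G'.subtype
      have h1 : derivedSeries G' (m + (j + 1)) ≤
          ((derivedSeries (D N).ρ.ker (j + 1)).map (D N).ρ.ker.subtype).comap ev := by
        rw [← Nat.add_assoc, derivedSeries_succ, derivedSeries_succ, Subgroup.commutator_le]
        intro a ha b hb
        rw [Subgroup.mem_comap, map_commutatorElement, Subgroup.map_commutator]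
        exact Subgroup.commutator_mem_commutator (ih a ha N) (ih b hb N)
      exact h1 hg
  have hsolv : Group.IsSolvable G' := by
    refine ⟨⟨m + s, ?_⟩⟩
    rw [eq_bot_iff]
    intro g hg
    rw [Subgroup.mem_bot]
    ext N
    have h1 := hker s g hg N
    rw [(D N).hker, Subgroup.map_bot, Subgroup.mem_bot] at h1
    exact h1
  have hnil : Group.IsNilpotent G' := nilpotent_of_solvable S' hS'f hS' hE'
  let c := Group.nilpotencyClass G'
  let ev : G' →* (D c).G := (Pi.evalMonoidHom (fun N => (D N).G) c).comp G'.subtype
  have hsurj : Function.Surjective ev := by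
    rw [← MonoidHom.range_eq_top, eq_top_iff, ← (D c).hx, Subgroup.closure_le]
    rintro _ ⟨i, rfl⟩
    exact ⟨⟨x i, hxG i⟩, rfl⟩
  have hn2 : Group.IsNilpotent (D c).G := Group.nilpotent_of_surjective ev hsurj
  have h3 : Group.nilpotencyClass (D c).G ≤ c := Group.nilpotencyClass_le_of_surjective ev hsurj
  exact absurd (hD c hn2) (by omega)

/-- A maximal abelian normal subgroup of a nilpotent group is self-centralising. -/
theorem exists_self_centralizing {G : Type*} [Group G] [Group.IsNilpotent G] :
    ∃ A : Subgroup G, A.Normal ∧ (∀ a ∈ A, ∀ b ∈ A, a * b = b * a) ∧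
      ∀ g : G, (∀ a ∈ A, g * a = a * g) → g ∈ A := by
  let X : Set (Subgroup G) := {A | A.Normal ∧ ∀ a ∈ A, ∀ b ∈ A, a * b = b * a}
  obtain ⟨A, hA⟩ : ∃ A, Maximal (· ∈ X) A := by
    apply zorn_le₀
    intro c hc hchain
    by_cases hne : c.Nonempty
    · refine ⟨sSup c, ⟨?_, ?_⟩, fun A hA => le_sSup hA⟩
      · constructor
        intro a ha g
        rw [Subgroup.mem_sSup_of_directedOn hne hchain.directedOn] at ha ⊢
        obtain ⟨K, hK, haK⟩ := ha
        exact ⟨K, hK, (hc hK).1.conj_mem a haK g⟩
      · intro a ha b hb
        rw [Subgroup.mem_sSup_of_directedOn hne hchain.directedOn] at ha hb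
        obtain ⟨K, hK, haK⟩ := ha
        obtain ⟨L, hL, hbL⟩ := hb
        rcases hchain.total hK hL with h | h
        · exact (hc hL).2 a (h haK) b hbL
        · exact (hc hK).2 a haK b (h hbL)
    · refine ⟨⊥, ⟨inferInstance, ?_⟩, ?_⟩
      · intro a ha b hb
        rw [Subgroup.mem_bot] at ha hb
        rw [ha, hb]
      · intro A hA
        exact absurd ⟨A, hA⟩ hne
  obtain ⟨hAn, hAc⟩ := hA.prop
  refine ⟨A, hAn, hAc, ?_⟩
  by_contra hcon
  push Not at hcon
  obtain ⟨g0, hg0, hg0A⟩ := hcon
  let C : Subgroup G := Subgroup.centralizer (A : Set G)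
  have hCmem : ∀ g, g ∈ C ↔ ∀ a ∈ A, a * g = g * a := fun g => Subgroup.mem_centralizer_iff
  have hCn : C.Normal := by
    constructor
    intro c hc g
    rw [hCmem] at hc ⊢
    intro a ha
    have h1 := hc (g⁻¹ * a * g) (by simpa using hAn.conj_mem a ha g⁻¹)
    calc a * (g * c * g⁻¹) = g * ((g⁻¹ * a * g) * c) * g⁻¹ := by group
      _ = g * (c * (g⁻¹ * a * g)) * g⁻¹ := by rw [h1]
      _ = g * c * g⁻¹ * a := by group
  -- some element of C outside A is central modulo A
  have hex : ∃ z ∈ C, z ∉ A ∧ ∀ g, ⁅z, g⁆ ∈ A := by
    by_contra hno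
    push Not at hno
    -- then C is contained in A: descend along the upper central series
    have key : ∀ n, ∀ z ∈ C, z ∈ Subgroup.upperCentralSeries G n → z ∈ A := by
      intro n
      induction n with
      | zero =>
        intro z _ hz
        rw [Subgroup.upperCentralSeries_zero, Subgroup.mem_bot] at hz
        rw [hz]; exact A.one_mem
      | succ n ih =>
        intro z hz hzn
        by_contra hzA
        obtain ⟨g, hg⟩ := hno z hz hzA
        apply hg
        apply ih
        · rw [commutatorElement_def]
          have h1 : z * g * z⁻¹ * g⁻¹ = z * (g * z⁻¹ * g⁻¹) := by group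
          rw [h1]
          exact C.mul_mem hz (hCn.conj_mem _ (C.inv_mem hz) g)
        · exact (Subgroup.mem_upperCentralSeries_succ_iff.mp hzn) g
    obtain ⟨n, hn⟩ := Group.IsNilpotent.nilpotent G
    apply hg0A
    refine key n g0 ?_ (by rw [hn]; exact Subgroup.mem_top g0)
    rw [hCmem]
    intro a ha
    exact (hg0 a ha).symm
  obtain ⟨z, hzC, hzA, hz⟩ := hex
  rw [hCmem] at hzC
  -- A ⊔ ⟨z⟩ is a larger abelian normal subgroup
  let B : Subgroup G := Subgroup.closure ((A : Set G) ∪ {z})
  have hAB : A ≤ B := fun a ha => Subgroup.subset_closure (Or.inl ha)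
  have hzB : z ∈ B := Subgroup.subset_closure (Or.inr rfl)
  have hBX : B ∈ X := by
    constructor
    · constructor
      intro y hy g
      induction hy using Subgroup.closure_induction with
      | mem y hy =>
        rcases hy with hy | hy
        · exact hAB (hAn.conj_mem y hy g)
        · rw [Set.mem_singleton_iff] at hy
          subst hy
          have h1 : g * y * g⁻¹ = ⁅y, g⁆⁻¹ * y := by rw [commutatorElement_def]; group
          rw [h1]
          exact B.mul_mem (B.inv_mem (hAB (hz g))) hzB
      | one => simp
      | mul a b _ _ h1 h2 =>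
        have h3 : g * (a * b) * g⁻¹ = (g * a * g⁻¹) * (g * b * g⁻¹) := by group
        rw [h3]; exact B.mul_mem h1 h2
      | inv a _ h1 =>
        have h3 : g * a⁻¹ * g⁻¹ = (g * a * g⁻¹)⁻¹ := by group
        rw [h3]; exact B.inv_mem h1
    · intro a ha b hb
      have hcomm : ∀ x ∈ (A : Set G) ∪ {z}, ∀ y ∈ (A : Set G) ∪ {z}, x * y = y * x := by
        intro x hx y hy
        rcases hx with hx | hx <;> rcases hy with hy | hy
        · exact hAc x hx y hy
        · rw [Set.mem_singleton_iff] at hy
          rw [hy]
          exact hzC x hx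
        · rw [Set.mem_singleton_iff] at hx
          rw [hx]
          exact (hzC y hy).symm
        · rw [Set.mem_singleton_iff] at hx hy
          rw [hx, hy]
      have hB : IsMulCommutative B := Subgroup.isMulCommutative_closure hcomm
      have := hB.is_comm.comm (⟨a, ha⟩ : B) ⟨b, hb⟩
      exact congrArg Subtype.val this
  exact hzA (hA.le_of_ge hBX hAB hzB)

end Pool.Agent.Helper45.Eng
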