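import Mathlib

set_option autoImplicit false

/-!
Nilpotent actions: if a nilpotent group `Q` is generated by finitely many elements acting
unipotently (in a ring `E`), then long products of elements `ρ q - 1` vanish.
-/

namespace Pool.Agent.Helper45.Eng

universe u v

open scoped commutatorElement

/-- All products of `N` elements of `X` vanish. -/
def ProdZero {E : Type v} [Ring E] (X : Set E) (N : ℕ) : Prop :=
  ∀ l : List E, l.length = N → (∀ x ∈ l, x ∈ X) → l.prod = 0

/-- All products of `N` elements of `X` lie in `I`. -/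
def ProdIn {E : Type v} [Ring E] (X : Set E) (I : Set E) (N : ℕ) : Prop :=
  ∀ l : List E, l.length = N → (∀ x ∈ l, x ∈ X) → l.prod ∈ I

theorem ProdZero.mono {E : Type v} [Ring E] {X : Set E} {N M : ℕ} (h : ProdZero X N)
    (hNM : N ≤ M) : ProdZero X M := by
  intro l hl hx
  have : l = l.take N ++ l.drop N := (List.take_append_drop N l).symm
  rw [this, List.prod_append, h (l.take N) (by simp [hl, hNM])
    (fun x hx' => hx x (List.mem_of_mem_take hx')), zero_mul]

theorem prodZero_of_central {E : Type v} [Ring E] {X : Set E} {u : E} {e N : ℕ}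
    (hu : ∀ x : E, u * x = x * u) (he : u ^ e = 0)
    (h : ProdIn X {x | ∃ y, x = u * y} N) : ProdZero X (N * e) := by
  have key : ∀ k : ℕ, ProdIn X {x | ∃ y, x = u ^ k * y} (N * k) := by
    intro k
    induction k with
    | zero =>
      intro l hl hx
      exact ⟨l.prod, by simp⟩
    | succ k ih =>
      intro l hl hx
      have hl' : l = l.take (N * k) ++ l.drop (N * k) := (List.take_append_drop _ l).symm
      obtain ⟨y, hy⟩ := ih (l.take (N * k)) (by simp [hl, Nat.mul_succ])
        (fun x hx' => hx x (List.mem_of_mem_take hx'))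
      obtain ⟨z, hz⟩ := h (l.drop (N * k)) (by simp [hl, Nat.mul_succ])
        (fun x hx' => hx x (List.mem_of_mem_drop hx'))
      refine ⟨y * z, ?_⟩
      rw [hl', List.prod_append, hy, hz, pow_succ]
      rw [mul_assoc, ← mul_assoc y u z, ← hu y, mul_assoc, mul_assoc]
  intro l hl hx
  obtain ⟨y, hy⟩ := key e l hl hx
  rw [hy, he, zero_mul]

/-- products of elements of the ideal spanned by finitely many central nilpotent elements vanish -/
theorem prodZero_span {E : Type v} [Ring E] (U : Finset E)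
    (hU : ∀ u ∈ U, (∀ x : E, u * x = x * u) ∧ IsNilpotent u) :
    ∃ k, ProdZero ((Ideal.span (U : Set E) : Ideal E) : Set E) k := by
  classical
  induction U using Finset.induction with
  | empty =>
    refine ⟨1, ?_⟩
    intro l hl hx
    obtain ⟨a, rfl⟩ := List.length_eq_one_iff.mp hl
    have := hx a (by simp)
    simpa using this
  | insert u U hu ih =>
    obtain ⟨k, hk⟩ := ih (fun x hx => hU x (Finset.mem_insert_of_mem hx))
    obtain ⟨hc, e, he⟩ := hU u (Finset.mem_insert_self _ _)
    refine ⟨k * e, prodZero_of_central hc he ?_⟩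
    -- expand the product
    have key : ∀ l : List E, (∀ x ∈ l, x ∈ (Ideal.span ((insert u U : Finset E) : Set E) : Ideal E)) →
        ∃ l' : List E, l'.length = l.length ∧
          (∀ x ∈ l', x ∈ (Ideal.span (U : Set E) : Ideal E)) ∧
          ∃ y, l.prod = l'.prod + u * y := by
      intro l
      induction l with
      | nil => intro _; exact ⟨[], rfl, by simp, 0, by simp⟩
      | cons a l ihl =>
        intro h
        obtain ⟨l', hlen, hmem, y, hy⟩ := ihl (fun x hx => h x (List.mem_cons_of_mem _ hx))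
        have ha := h a (by simp)
        rw [Finset.coe_insert, Ideal.mem_span_insert] at ha
        obtain ⟨b, z, hz, rfl⟩ := ha
        refine ⟨z :: l', by simp [hlen], ?_, b * l.prod + z * y, ?_⟩
        · intro x hx
          rcases List.mem_cons.mp hx with rfl | hx
          · exact hz
          · exact hmem x hx
        · rw [List.prod_cons, List.prod_cons, hy]
          have h1 : b * u * (l'.prod + u * y) = u * (b * (l'.prod + u * y)) := by
            rw [← hc b, mul_assoc]
          have h2 : z * (l'.prod + u * y) = z * l'.prod + u * (z * y) := by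
            rw [mul_add, ← mul_assoc z u y, ← hc z, mul_assoc]
          rw [add_mul, h1, h2, mul_add u]
          abel
    intro l hl hx
    obtain ⟨l', hlen, hmem, y, hy⟩ := key l hx
    refine ⟨y, ?_⟩
    rw [hy, hk l' (by rw [hlen, hl]) hmem, zero_add]

theorem prodZero_of_prodIn_span {E : Type v} [Ring E] (U : Finset E)
    (hU : ∀ u ∈ U, (∀ x : E, u * x = x * u) ∧ IsNilpotent u) {X : Set E} {N : ℕ}
    (h : ProdIn X ((Ideal.span (U : Set E) : Ideal E) : Set E) N) :
    ∃ k, ProdZero X k := by
  obtain ⟨k, hk⟩ := prodZero_span U hU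
  refine ⟨N * k, ?_⟩
  have key : ∀ j : ℕ, ∀ l : List E, l.length = N * j → (∀ x ∈ l, x ∈ X) →
      ∃ l' : List E, l'.length = j ∧ (∀ x ∈ l', x ∈ (Ideal.span (U : Set E) : Ideal E)) ∧
        l.prod = l'.prod := by
    intro j
    induction j with
    | zero =>
      intro l hl _
      refine ⟨[], rfl, by simp, ?_⟩
      have : l = [] := by simpa using hl
      simp [this]
    | succ j ih =>
      intro l hl hx
      obtain ⟨l', h1, h2, h3⟩ := ih (l.drop N) (by simp [hl, Nat.mul_succ])
        (fun x hx' => hx x (List.mem_of_mem_drop hx'))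
      refine ⟨(l.take N).prod :: l', by simp [h1], ?_, ?_⟩
      · intro x hx'
        rcases List.mem_cons.mp hx' with rfl | hx'
        · exact h _ (by simp [hl, Nat.mul_succ]) (fun x hx' => hx x (List.mem_of_mem_take hx'))
        · exact h2 x hx'
      · rw [List.prod_cons, ← h3, ← List.prod_append, List.take_append_drop]
  intro l hl hx
  obtain ⟨l', h1, h2, h3⟩ := key k l hl hx
  rw [h3]
  exact hk l' h1 h2

/-- Finite generation of the lower central factors, with commutators as generators. -/
theorem exists_gens {Q : Type u} [Group Q] (S : Set Q) (hfin : S.Finite)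
    (hS : Subgroup.closure S = ⊤) (i : ℕ) :
    ∃ T : Set Q, T.Finite ∧ T ⊆ ((⊤ : Subgroup Q).lowerCentralSeries i : Set Q) ∧
      (⊤ : Subgroup Q).lowerCentralSeries i ≤
        Subgroup.closure T ⊔ (⊤ : Subgroup Q).lowerCentralSeries (i + 1) ∧
      ((i = 0 ∧ T = S) ∨
        (∀ t ∈ T, ∃ a : Q, ∃ s ∈ S, t = a * s * a⁻¹ * s⁻¹)) := by
  induction i with
  | zero =>
    refine ⟨S, hfin, by intro x _; simp, ?_, Or.inl ⟨rfl, rfl⟩⟩
    rw [hS]; simp
  | succ i ih =>
    obtain ⟨T, hTf, hTs, hT, _⟩ := ih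
    set L := fun j => (⊤ : Subgroup Q).lowerCentralSeries j with hL
    let T' : Set Q := Set.image2 (fun a s => a * s * a⁻¹ * s⁻¹) T S
    have hT'f : T'.Finite := Set.Finite.image2 _ hTf hfin
    have hT's : T' ⊆ (L (i + 1) : Set Q) := by
      rintro _ ⟨a, ha, s, hs, rfl⟩
      exact Subgroup.commutator_mem_commutator (hTs ha) (Subgroup.mem_top s)
    let K : Subgroup Q := Subgroup.closure T' ⊔ L (i + 2)
    have hKle : K ≤ L (i + 1) := by
      refine sup_le ((Subgroup.closure_le _).mpr hT's) ?_
      exact (⊤ : Subgroup Q).lowerCentralSeries_antitone (Nat.le_succ _)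
    have hLK : L (i + 2) ≤ K := le_sup_right
    have hKn : K.Normal := by
      constructor
      intro k hk q
      have h1 : k * q * k⁻¹ * q⁻¹ ∈ L (i + 2) :=
        Subgroup.commutator_mem_commutator (hKle hk) (Subgroup.mem_top q)
      have h2 : q * k * q⁻¹ = (k * q * k⁻¹ * q⁻¹)⁻¹ * k := by group
      rw [h2]
      exact K.mul_mem (K.inv_mem (hLK h1)) hk
    -- the subgroup of elements central modulo K
    let C : Subgroup Q := Subgroup.upperCentralSeriesStep K
    have hC : ∀ x, x ∈ C ↔ ∀ y, ⁅x, y⁆ ∈ K := fun x => Iff.rfl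
    have hTC : T ⊆ (C : Set Q) := by
      intro t ht
      rw [SetLike.mem_coe, hC]
      let D : Subgroup Q := (Subgroup.centralizer {QuotientGroup.mk' K t}).comap
        (QuotientGroup.mk' K)
      have hD : ∀ y, y ∈ D ↔ ⁅t, y⁆ ∈ K := by
        intro y
        rw [Subgroup.mem_comap, Subgroup.mem_centralizer_singleton_iff, ← map_mul, ← map_mul]
        rw [QuotientGroup.mk'_apply, QuotientGroup.mk'_apply, eq_comm, QuotientGroup.eq]
        have : (t * y)⁻¹ * (y * t) = (y⁻¹ * t⁻¹) * ⁅t, y⁆⁻¹ * (y⁻¹ * t⁻¹)⁻¹ := by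
          rw [commutatorElement_def]; group
        constructor
        · intro h
          rw [this] at h
          have := hKn.conj_mem _ h (y⁻¹ * t⁻¹)⁻¹
          simp only [inv_inv] at this
          have h3 : ((y⁻¹ * t⁻¹)⁻¹ * (y⁻¹ * t⁻¹ * ⁅t, y⁆⁻¹ * (y⁻¹ * t⁻¹)⁻¹) * (y⁻¹ * t⁻¹)) =
            ⁅t, y⁆⁻¹ := by group
          rw [h3] at this
          exact (Subgroup.inv_mem_iff K).mp this
        · intro h
          rw [this]
          exact hKn.conj_mem _ (K.inv_mem h) _
      have hSD : S ⊆ (D : Set Q) := by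
        intro s hs
        rw [SetLike.mem_coe, hD]
        exact (le_sup_left : Subgroup.closure T' ≤ K)
          (Subgroup.subset_closure ⟨t, ht, s, hs, rfl⟩)
      have : D = ⊤ := by
        rw [eq_top_iff, ← hS]
        exact (Subgroup.closure_le _).mpr hSD
      intro y
      rw [← hD, this]
      exact Subgroup.mem_top y
    have hLC : L i ≤ C := by
      refine hT.trans (sup_le ((Subgroup.closure_le _).mpr hTC) ?_)
      intro x hx
      rw [hC]
      intro y
      exact hLK (Subgroup.commutator_mem_commutator hx (Subgroup.mem_top y))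
    refine ⟨T', hT'f, hT's, ?_, Or.inr ?_⟩
    · change ⁅L i, ⊤⁆ ≤ K
      rw [Subgroup.commutator_le]
      intro g hg h _
      exact (hC g).mp (hLC hg) h
    · rintro _ ⟨a, _, s, hs, rfl⟩
      exact ⟨a, s, hs, rfl⟩

theorem central_of_gen {Q : Type u} [Group Q] {E : Type v} [Ring E] (ρ : Q →* E)
    (hgen : Subring.closure (Set.range ρ) = ⊤) (t : E) (ht : ∀ q, t * ρ q = ρ q * t) :
    ∀ x : E, t * x = x * t := by
  intro x
  have hx : x ∈ Subring.closure (Set.range ρ) := by rw [hgen]; trivial
  induction hx using Subring.closure_induction with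
  | mem x hx => obtain ⟨q, rfl⟩ := hx; exact ht q
  | zero => simp
  | one => simp
  | add x y _ _ h1 h2 => rw [mul_add, add_mul, h1, h2]
  | neg x _ h => rw [mul_neg, neg_mul, h]
  | mul x y _ _ h1 h2 => rw [← mul_assoc, h1, mul_assoc, h2, mul_assoc]

/-- In a ring, conjugates and inverses of unipotent group elements are unipotent. -/
theorem unip_conj {Q : Type u} [Group Q] {E : Type v} [Ring E] (ρ : Q →* E) (a s : Q)
    (h : IsNilpotent (ρ s - 1)) : IsNilpotent (ρ (a * s * a⁻¹) - 1) := by
  obtain ⟨n, hn⟩ := h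
  have hinv : ρ a * ρ a⁻¹ = 1 := by rw [← map_mul]; simp
  have hinv' : ρ a⁻¹ * ρ a = 1 := by rw [← map_mul]; simp
  have key : ∀ k : ℕ, (ρ (a * s * a⁻¹) - 1) ^ k = ρ a * (ρ s - 1) ^ k * ρ a⁻¹ := by
    intro k
    induction k with
    | zero => simp [hinv]
    | succ k ih =>
      rw [pow_succ, ih, pow_succ]
      have h2 : ρ (a * s * a⁻¹) - 1 = ρ a * (ρ s - 1) * ρ a⁻¹ := by
        rw [map_mul, map_mul, mul_sub, sub_mul, mul_one, hinv]
      rw [h2]
      calc ρ a * (ρ s - 1) ^ k * ρ a⁻¹ * (ρ a * (ρ s - 1) * ρ a⁻¹)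
          = ρ a * (ρ s - 1) ^ k * (ρ a⁻¹ * ρ a) * (ρ s - 1) * ρ a⁻¹ := by
            simp only [mul_assoc]
        _ = ρ a * ((ρ s - 1) ^ k * (ρ s - 1)) * ρ a⁻¹ := by
            rw [hinv', mul_one]; simp only [mul_assoc]
  exact ⟨n, by rw [key, hn]; simp⟩

theorem unip_inv {Q : Type u} [Group Q] {E : Type v} [Ring E] (ρ : Q →* E) (s : Q)
    (h : IsNilpotent (ρ s - 1)) : IsNilpotent (ρ s⁻¹ - 1) := by
  have hinv : ρ s * ρ s⁻¹ = 1 := by rw [← map_mul]; simp
  have hinv' : ρ s⁻¹ * ρ s = 1 := by rw [← map_mul]; simp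
  have h2 : ρ s⁻¹ - 1 = (-(ρ s⁻¹)) * (ρ s - 1) := by
    rw [mul_sub, neg_mul, hinv', mul_one]; abel
  rw [h2]
  have hc : Commute (-(ρ s⁻¹)) (ρ s - 1) := by
    change -(ρ s⁻¹) * (ρ s - 1) = (ρ s - 1) * -(ρ s⁻¹)
    rw [mul_sub, sub_mul, neg_mul, mul_neg, hinv', hinv]; simp
  exact hc.isNilpotent_mul_left h

theorem unip_mul {Q : Type u} [Group Q] {E : Type v} [Ring E] (ρ : Q →* E) (s t : Q)
    (hst : s * t = t * s)
    (h1 : IsNilpotent (ρ s - 1)) (h2 : IsNilpotent (ρ t - 1)) :
    IsNilpotent (ρ (s * t) - 1) := by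
  have hc : Commute (ρ s) (ρ t) := by
    change ρ s * ρ t = ρ t * ρ s
    rw [← map_mul, ← map_mul, hst]
  have h3 : ρ (s * t) - 1 = (ρ s - 1) * ρ t + (ρ t - 1) := by
    rw [map_mul, sub_mul, one_mul]; abel
  rw [h3]
  have hc1 : Commute (ρ s - 1) (ρ t) := hc.sub_left (Commute.one_left _)
  have hc2 : Commute ((ρ s - 1) * ρ t) (ρ t - 1) := by
    refine Commute.mul_left ?_ ?_
    · exact (hc1.sub_right (Commute.one_right _))
    · exact (Commute.refl _).sub_right (Commute.one_right _)
  exact hc2.isNilpotent_add (hc1.isNilpotent_mul_right h1) h2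

theorem nilp_action_aux (c : ℕ) : ∀ {Q : Type u} [Group Q] (S : Set Q), S.Finite →
    Subgroup.closure S = ⊤ → (⊤ : Subgroup Q).lowerCentralSeries c = ⊥ →
    ∀ {E : Type v} [Ring E] (ρ : Q →* E), Subring.closure (Set.range ρ) = ⊤ →
      (∀ s ∈ S, IsNilpotent (ρ s - 1)) →
      ∃ N, ProdZero {x | ∃ q, x = ρ q - 1} N := by
  classical
  induction c with
  | zero =>
    intro Q _ S _ _ hc E _ ρ _ _
    refine ⟨1, ?_⟩
    intro l hl hx
    obtain ⟨a, rfl⟩ := List.length_eq_one_iff.mp hl
    obtain ⟨q, hq⟩ := hx a (by simp)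
    have : q = 1 := by
      have h1 : q ∈ (⊤ : Subgroup Q) := Subgroup.mem_top q
      rw [Subgroup.lowerCentralSeries_zero] at hc
      rw [hc] at h1
      exact Subgroup.mem_bot.mp h1
    simp [hq, this]
  | succ c ih =>
    intro Q _ S hSf hS hc E _ ρ hgen hu
    obtain ⟨T, hTf, hTs, hT, hT2⟩ := exists_gens S hSf hS c
    set L := (⊤ : Subgroup Q).lowerCentralSeries c with hL
    rw [hc, sup_bot_eq] at hT
    have hcl : Subgroup.closure T = L := le_antisymm ((Subgroup.closure_le _).mpr hTs) hT
    have hcent : ∀ t ∈ L, ∀ q : Q, t * q = q * t := by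
      intro t ht q
      have h1 : t * q * t⁻¹ * q⁻¹ ∈ (⊤ : Subgroup Q).lowerCentralSeries (c + 1) :=
        Subgroup.commutator_mem_commutator ht (Subgroup.mem_top q)
      rw [hc, Subgroup.mem_bot] at h1
      calc t * q = (t * q * t⁻¹ * q⁻¹) * (q * t) := by group
        _ = q * t := by rw [h1, one_mul]
    have hnil : ∀ t ∈ T, IsNilpotent (ρ t - 1) := by
      rcases hT2 with ⟨_, rfl⟩ | h
      · exact hu
      · intro t ht
        obtain ⟨a, s, hs, rfl⟩ := h t ht
        have hcc := hcent _ (hTs ht)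
        refine unip_mul ρ _ _ ?_ (unip_conj ρ a s (hu s hs)) (unip_inv ρ s (hu s hs))
        -- a s a⁻¹ and s⁻¹ commute
        have h1 := hcc s
        have h2 : a * s * a⁻¹ * s⁻¹ * s = a * s * a⁻¹ := by group
        rw [h2] at h1
        -- a s a⁻¹ = s * (a s a⁻¹ s⁻¹)
        rw [h1]
        have h3 := hcc s⁻¹
        calc s * (a * s * a⁻¹ * s⁻¹) * s⁻¹ = s * ((a * s * a⁻¹ * s⁻¹) * s⁻¹) := by group
          _ = s * (s⁻¹ * (a * s * a⁻¹ * s⁻¹)) := by rw [h3]
          _ = s⁻¹ * (s * (a * s * a⁻¹ * s⁻¹)) := by group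
    let U : Finset E := hTf.toFinset.image (fun t => ρ t - 1)
    have hU : ∀ u ∈ U, (∀ x : E, u * x = x * u) ∧ IsNilpotent u := by
      intro u huU
      obtain ⟨t, ht, rfl⟩ := Finset.mem_image.mp huU
      rw [Set.Finite.mem_toFinset] at ht
      refine ⟨?_, hnil t ht⟩
      refine central_of_gen ρ hgen _ ?_
      intro q
      rw [sub_mul, mul_sub, ← map_mul, ← map_mul, hcent t (hTs ht) q, one_mul, mul_one]
    let I : Ideal E := Ideal.span (U : Set E)
    have hI2 : I.IsTwoSided := by
      constructor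
      intro a b ha
      induction ha using Submodule.span_induction with
      | mem x hx =>
        rw [(hU x hx).1 b]
        exact I.mul_mem_left b (Ideal.subset_span hx)
      | zero => simp
      | add x y _ _ h1 h2 => rw [add_mul]; exact I.add_mem h1 h2
      | smul r x _ h => rw [smul_eq_mul, mul_assoc]; exact I.mul_mem_left r h
    let φ : Q →* E ⧸ I := ((Ideal.Quotient.mk I : E →+* E ⧸ I) : E →* E ⧸ I).comp ρ
    have hker : L ≤ φ.ker := by
      rw [← hcl, Subgroup.closure_le]
      intro t ht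
      rw [SetLike.mem_coe, MonoidHom.mem_ker]
      change (Ideal.Quotient.mk I) (ρ t) = 1
      rw [← map_one (Ideal.Quotient.mk I), Ideal.Quotient.eq]
      exact Ideal.subset_span (Finset.mem_coe.mpr (Finset.mem_image.mpr
        ⟨t, (Set.Finite.mem_toFinset _).mpr ht, rfl⟩))
    have hLn : L.Normal := by rw [hL]; infer_instance
    let ρ' : Q ⧸ L →* E ⧸ I := QuotientGroup.lift L φ (fun x hx => hker hx)
    have hρ' : ∀ q : Q, ρ' (QuotientGroup.mk' L q) = Ideal.Quotient.mk I (ρ q) := fun q => rfl
    obtain ⟨N, hN⟩ := ih (Q := Q ⧸ L) ((QuotientGroup.mk' L) '' S) (hSf.image _)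
      (by
        rw [← MonoidHom.map_closure, hS]
        exact Subgroup.map_top_of_surjective _ (QuotientGroup.mk'_surjective L))
      (by
        have h1 := Subgroup.map_lowerCentralSeries (⊤ : Subgroup Q) (QuotientGroup.mk' L) c
        rw [Subgroup.map_top_of_surjective _ (QuotientGroup.mk'_surjective L)] at h1
        rw [← h1, ← hL]
        rw [Subgroup.map_eq_bot_iff, QuotientGroup.ker_mk'])
      (E := E ⧸ I) ρ'
      (by
        rw [eq_top_iff]
        intro x _
        obtain ⟨y, rfl⟩ := Ideal.Quotient.mk_surjective x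
        have hy : y ∈ Subring.closure (Set.range ρ) := by rw [hgen]; trivial
        induction hy using Subring.closure_induction with
        | mem x hx =>
          obtain ⟨q, rfl⟩ := hx
          exact Subring.subset_closure ⟨QuotientGroup.mk' L q, rfl⟩
        | zero => rw [map_zero]; exact zero_mem _
        | one => rw [map_one]; exact one_mem _
        | add x y _ _ h1 h2 => rw [map_add]; exact add_mem (h1 trivial) (h2 trivial)
        | neg x _ h => rw [map_neg]; exact neg_mem (h trivial)
        | mul x y _ _ h1 h2 => rw [map_mul]; exact mul_mem (h1 trivial) (h2 trivial))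
      (by
        rintro _ ⟨s, hs, rfl⟩
        rw [hρ', ← map_one (Ideal.Quotient.mk I), ← map_sub]
        exact (hu s hs).map (Ideal.Quotient.mk I))
    refine prodZero_of_prodIn_span U hU (N := N) ?_
    intro l hl hx
    change l.prod ∈ I
    rw [← Ideal.Quotient.eq_zero_iff_mem, map_list_prod]
    refine hN _ (by simpa using hl) ?_
    intro y hy
    obtain ⟨x, hxl, rfl⟩ := List.mem_map.mp hy
    obtain ⟨q, rfl⟩ := hx x hxl
    exact ⟨QuotientGroup.mk' L q, by rw [hρ', map_sub, map_one]⟩

/-- A nilpotent group generated by finitely many elements that act unipotently acts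
nilpotently. -/
theorem nilp_action {Q : Type u} [Group Q] [Group.IsNilpotent Q] (S : Set Q) (hSf : S.Finite)
    (hS : Subgroup.closure S = ⊤) {E : Type v} [Ring E] (ρ : Q →* E)
    (hu : ∀ s ∈ S, IsNilpotent (ρ s - 1)) :
    ∃ N, ProdZero {x | ∃ q, x = ρ q - 1} N := by
  obtain ⟨c, hc⟩ := Subgroup.nilpotent_iff_lowerCentralSeries.mp (inferInstance : Group.IsNilpotent Q)
  let B : Subring E := Subring.closure (Set.range ρ)
  let ρ' : Q →* B :=
    { toFun := fun q => ⟨ρ q, Subring.subset_closure ⟨q, rfl⟩⟩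
      map_one' := by ext; simp
      map_mul' := by intro a b; ext; simp }
  obtain ⟨N, hN⟩ := nilp_action_aux c S hSf hS hc ρ'
    (by
      rw [eq_top_iff]
      rintro ⟨x, hx⟩ _
      induction hx using Subring.closure_induction with
      | mem x hx =>
        obtain ⟨q, rfl⟩ := hx
        exact Subring.subset_closure ⟨q, rfl⟩
      | zero => exact zero_mem _
      | one => exact one_mem _
      | add x y _ _ h1 h2 => exact add_mem (h1 trivial) (h2 trivial)
      | neg x _ h => exact neg_mem (h trivial)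
      | mul x y _ _ h1 h2 => exact mul_mem (h1 trivial) (h2 trivial))
    (by
      intro s hs
      obtain ⟨n, hn⟩ := hu s hs
      exact ⟨n, by ext; simpa [ρ'] using hn⟩)
  refine ⟨N, ?_⟩
  intro l hl hx
  -- lift the list
  have : ∃ l' : List B, l'.map (fun y : B => (y : E)) = l ∧
      ∀ y ∈ l', y ∈ {x | ∃ q, x = ρ' q - 1} := by
    clear hl
    induction l with
    | nil => exact ⟨[], rfl, by simp⟩
    | cons a l ihl =>
      obtain ⟨l', h1, h2⟩ := ihl (fun x hx' => hx x (List.mem_cons_of_mem _ hx'))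
      obtain ⟨q, hq⟩ := hx a (by simp)
      refine ⟨(ρ' q - 1) :: l', ?_, ?_⟩
      · rw [List.map_cons, h1, hq]; rfl
      · intro y hy
        rcases List.mem_cons.mp hy with rfl | hy
        · exact ⟨q, rfl⟩
        · exact h2 y hy
  obtain ⟨l', h1, h2⟩ := this
  have h3 := hN l' (by rw [← hl, ← h1, List.length_map]) h2
  have h4 : l.prod = ((l'.prod : B) : E) := by
    rw [← h1]
    have := map_list_prod B.subtype l'
    simp
  rw [h4, h3]; rfl

end Pool.Agent.Helper45.Eng
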