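import Pool.Agent.Helper45.Eng.Solv

set_option autoImplicit false

/-!
Baer's theorem: a finite group generated by a normal set of left Engel elements is nilpotent.
-/

namespace Pool.Agent.Helper45.Eng

universe u

open scoped commutatorElement

section lemmas

variable {G : Type u} [Group G] (D : Set G)

/-- the subgroup generated by the elements of `D` in `H` -/
def DC (H : Subgroup G) : Subgroup G := Subgroup.closure (D ∩ (H : Set G))

theorem DC_le (H : Subgroup G) : DC D H ≤ H :=
  (Subgroup.closure_le _).mpr Set.inter_subset_right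

theorem mem_DC {H : Subgroup G} {x : G} (hx : x ∈ D) (hH : x ∈ H) : x ∈ DC D H :=
  Subgroup.subset_closure ⟨hx, hH⟩

theorem DC_mono {H K : Subgroup G} (h : ∀ x ∈ D, x ∈ H → x ∈ K) : DC D H ≤ DC D K :=
  Subgroup.closure_mono (fun _ hx => ⟨hx.1, h _ hx.1 hx.2⟩)

theorem DC_idem (H : Subgroup G) : DC D (DC D H) = DC D H :=
  le_antisymm (DC_mono D (fun _ _ hx => DC_le D H hx)) (DC_mono D (fun _ hx hH => mem_DC D hx hH))

/-- proper `D`-subgroups -/
def DS (P : Subgroup G) : Prop := P ≠ ⊤ ∧ DC D P = P

theorem DS_of_ne_top {H : Subgroup G} (hH : H ≠ ⊤) : DS D (DC D H) :=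
  ⟨fun h => hH (top_le_iff.mp (h ▸ DC_le D H)), DC_idem D H⟩

/-- If `P` is nilpotent, `I ≤ P` is generated by elements of `D`, and `D ∩ P` is not contained in
`I`, some element of `D ∩ P` outside `I` normalises `I`. -/
theorem exists_normalizing [Finite G] (hconj : ∀ a ∈ D, ∀ g : G, g * a * g⁻¹ ∈ D)
    (P I : Subgroup G) (hP : Group.IsNilpotent P) (hIP : I ≤ P) (hI : DC D I = I)
    (hne : ∃ x ∈ D, x ∈ P ∧ x ∉ I) :
    ∃ a ∈ D, a ∈ P ∧ a ∉ I ∧ a ∈ Subgroup.normalizer (I : Set G) := by
  obtain ⟨J, hIJ, hJ⟩ := Finite.exists_le_maximal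
    (p := fun J : Subgroup G => J ≤ P ∧ I ≤ J ∧ ∀ x ∈ D, x ∈ J → x ∈ I)
    (a := I) ⟨hIP, le_rfl, fun x _ h => h⟩
  obtain ⟨hJP, _, hJD⟩ := hJ.prop
  -- J is a proper subgroup of P
  have hJlt : J.subgroupOf P < ⊤ := by
    rw [lt_top_iff_ne_top]
    intro h
    rw [Subgroup.subgroupOf_eq_top] at h
    obtain ⟨x, hx, hxP, hxI⟩ := hne
    exact hxI (hJD x hx (h hxP))
  have hnc := Group.normalizerCondition_of_isNilpotent (G := P) _ hJlt
  let J' : Subgroup G := (Subgroup.normalizer ((J.subgroupOf P : Subgroup P) : Set P)).map P.subtype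
  have hJJ' : J ≤ J' := by
    intro x hx
    exact ⟨⟨x, hJP hx⟩, hnc.le (by rw [Subgroup.mem_subgroupOf]; exact hx), rfl⟩
  have hJ'P : J' ≤ P := by
    rintro _ ⟨y, _, rfl⟩
    exact y.2
  have hnorm : ∀ x ∈ J', x ∈ Subgroup.normalizer (J : Set G) := by
    rintro _ ⟨y, hy, rfl⟩
    rw [Subgroup.mem_normalizer_iff]
    have hy' := Subgroup.mem_normalizer_iff.mp hy
    intro h
    constructor
    · intro hh
      exact (hy' ⟨h, hJP hh⟩).mp hh
    · intro hh
      have h1 : (y : G) * h * (y : G)⁻¹ ∈ P := hJP hh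
      have h2 : h ∈ P := by
        have := P.mul_mem (P.mul_mem (P.inv_mem y.2) h1) y.2
        simpa [mul_assoc] using this
      exact (hy' ⟨h, h2⟩).mpr hh
  have hJ'ne : ¬ J' ≤ J := by
    intro h
    obtain ⟨z, hz1, hz2⟩ := SetLike.exists_of_lt hnc
    exact hz2 (h ⟨z, hz1, rfl⟩)
  have hex : ¬ ∀ x ∈ D, x ∈ J' → x ∈ I := by
    intro h
    exact hJ'ne (hJ.le_of_ge (y := J') ⟨hJ'P, hIJ.trans hJJ', h⟩ hJJ')
  push Not at hex
  obtain ⟨a, haD, haJ', haI⟩ := hex
  refine ⟨a, haD, hJ'P haJ', haI, ?_⟩
  have hDJ : DC D J = I := by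
    apply le_antisymm
    · exact (DC_mono D hJD).trans (DC_le D I)
    · rw [← hI]
      exact DC_mono D (fun x _ hx => hIJ hx)
  have haJ := hnorm a haJ'
  rw [Subgroup.mem_normalizer_iff_map_conj_eq]
  rw [Subgroup.mem_normalizer_iff] at haJ
  rw [← hDJ, DC, MonoidHom.map_closure]
  congr 1
  ext x
  constructor
  · rintro ⟨y, ⟨hyD, hyJ⟩, rfl⟩
    exact ⟨hconj y hyD a, (haJ y).mp hyJ⟩
  · rintro ⟨hxD, hxJ⟩
    refine ⟨a⁻¹ * x * a, ⟨?_, ?_⟩, ?_⟩
    · have := hconj x hxD a⁻¹
      simpa using this
    · rw [SetLike.mem_coe, haJ]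
      have : a * (a⁻¹ * x * a) * a⁻¹ = x := by group
      rwa [this]
    · simp [MulAut.conj_apply, mul_assoc]

end lemmas

theorem baer_aux (N : ℕ) : ∀ {G : Type u} [Group G] [Finite G], Nat.card G ≤ N → ∀ D : Set G,
    (∀ a ∈ D, ∀ g : G, g * a * g⁻¹ ∈ D) → (∀ a ∈ D, ∃ n, LEngel n a) →
    Subgroup.closure D = ⊤ → Group.IsNilpotent G := by
  induction N with
  | zero =>
    intro G _ _ h
    have := Nat.card_pos (α := G)
    omega
  | succ N ih =>
    intro G _ _ hcard D hconj hE hcl
    by_contra hnil
    -- proper D-subgroups are nilpotent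
    have hDS : ∀ P : Subgroup G, DS D P → Group.IsNilpotent P := by
      intro P hP
      have hlt : Nat.card P < Nat.card G := by
        have h1 := Subgroup.card_le_of_le (le_top : P ≤ ⊤)
        rw [Subgroup.card_top] at h1
        refine lt_of_le_of_ne h1 ?_
        intro h
        exact hP.1 (Subgroup.eq_top_of_card_eq P h)
      refine ih (G := P) (by omega) {x : P | (x : G) ∈ D} ?_ ?_ ?_
      · intro a ha g
        exact hconj a ha g
      · intro a ha
        obtain ⟨n, hn⟩ := hE a ha
        exact ⟨n, LEngel.of_injective (f := P.subtype) P.subtype_injective hn⟩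
      · rw [eq_top_iff]
        intro x _
        have hx : (x : G) ∈ Subgroup.closure (D ∩ (P : Set G)) := by
          have := hP.2
          rw [DC] at this
          rw [this]
          exact x.2
        have key : ∀ y ∈ Subgroup.closure (D ∩ (P : Set G)), ∃ hy : y ∈ P,
            (⟨y, hy⟩ : P) ∈ Subgroup.closure {x : P | (x : G) ∈ D} := by
          intro y hy
          induction hy using Subgroup.closure_induction with
          | mem y hy => exact ⟨hy.2, Subgroup.subset_closure hy.1⟩
          | one => exact ⟨P.one_mem, Subgroup.one_mem _⟩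
          | mul a b _ _ h1 h2 =>
            obtain ⟨ha, ha'⟩ := h1
            obtain ⟨hb, hb'⟩ := h2
            exact ⟨P.mul_mem ha hb, Subgroup.mul_mem _ ha' hb'⟩
          | inv a _ h1 =>
            obtain ⟨ha, ha'⟩ := h1
            exact ⟨P.inv_mem ha, Subgroup.inv_mem _ ha'⟩
        obtain ⟨_, h⟩ := key x hx
        exact h
    -- no nontrivial soluble normal subgroup
    have hsol : ∀ I : Subgroup G, I.Normal → Group.IsSolvable I → I = ⊥ := by
      intro I hIn hIs
      by_contra hne
      have hlt : Nat.card (G ⧸ I) < Nat.card G := by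
        have h1 := Subgroup.card_eq_card_quotient_mul_card_subgroup I
        have h2 : 1 < Nat.card I := by
          by_contra h
          exact hne (Subgroup.card_le_one_iff_eq_bot I |>.mp (by omega))
        have h3 : 0 < Nat.card (G ⧸ I) := Nat.card_pos
        rw [h1]
        nlinarith
      have hq : Group.IsNilpotent (G ⧸ I) := by
        refine ih (G := G ⧸ I) (by omega) ((QuotientGroup.mk' I) '' D) ?_ ?_ ?_
        · rintro _ ⟨a, ha, rfl⟩ g
          obtain ⟨g, rfl⟩ := QuotientGroup.mk'_surjective I g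
          exact ⟨g * a * g⁻¹, hconj a ha g, by simp⟩
        · rintro _ ⟨a, ha, rfl⟩
          obtain ⟨n, hn⟩ := hE a ha
          exact ⟨n, hn.map (QuotientGroup.mk'_surjective I)⟩
        · rw [← MonoidHom.map_closure, hcl]
          exact Subgroup.map_top_of_surjective _ (QuotientGroup.mk'_surjective I)
      have hG : Group.IsSolvable G :=
        (Group.isSolvable_iff_subgroup_quotient I).mpr ⟨hIs, inferInstance⟩
      exact hnil (nilpotent_of_solvable D (Set.toFinite D) hcl hE)
    -- maximal D-subgroups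
    let M : Subgroup G → Prop := Maximal (DS D)
    have hMex : ∀ K : Subgroup G, DS D K → ∃ P, K ≤ P ∧ M P := fun K hK =>
      Finite.exists_le_maximal hK
    have hx0 : ∀ x ∈ D, ∃ P, x ∈ P ∧ M P := by
      intro x hx
      have h1 : Subgroup.zpowers x ≠ ⊤ := by
        intro h
        apply hnil
        have : IsCyclic G := ⟨x, fun y => by
          have hy := Subgroup.mem_top y
          rw [← h] at hy
          exact Subgroup.mem_zpowers_iff.mp hy⟩
        let _ : CommGroup G := IsCyclic.commGroup
        exact CommGroup.isNilpotent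
      obtain ⟨P, hP, hMP⟩ := hMex _ (DS_of_ne_top D h1)
      exact ⟨P, hP (mem_DC D hx (Subgroup.mem_zpowers x)), hMP⟩
    have hneq : ∀ P, M P → ∃ y ∈ D, y ∉ P := by
      intro P hP
      by_contra h
      push Not at h
      exact hP.prop.1 (top_le_iff.mp (hcl ▸ (Subgroup.closure_le P).mpr h))
    -- there is x in D, x ≠ 1
    obtain ⟨x, hxD, hx1⟩ : ∃ x ∈ D, x ≠ 1 := by
      by_contra h
      push Not at h
      have h1 : Subgroup.closure D ≤ ⊥ := (Subgroup.closure_le _).mpr (fun x hx => by
        rw [h x hx]; exact Subgroup.one_mem _)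
      rw [hcl, top_le_iff] at h1
      apply hnil
      have : Subsingleton G := by
        constructor
        intro a b
        have ha : a ∈ (⊤ : Subgroup G) := Subgroup.mem_top a
        have hb : b ∈ (⊤ : Subgroup G) := Subgroup.mem_top b
        rw [← h1, Subgroup.mem_bot] at ha hb
        rw [ha, hb]
      infer_instance
    obtain ⟨P, hxP, hMP⟩ := hx0 x hxD
    obtain ⟨y, hyD, hyP⟩ := hneq P hMP
    obtain ⟨Q, hyQ, hMQ⟩ := hx0 y hyD
    -- choose a pair with the largest intersection
    let W : Set (Subgroup G × Subgroup G) := {p | M p.1 ∧ M p.2 ∧ p.1 ≠ p.2}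
    have hWne : W.Nonempty := ⟨(P, Q), hMP, hMQ, fun h => hyP (by
      have : P = Q := h
      rw [this]; exact hyQ)⟩
    obtain ⟨⟨P1, Q1⟩, ⟨hP1, hQ1, hPQ1⟩, hmax⟩ := Set.exists_max_image W
      (fun p => Nat.card (DC D (p.1 ⊓ p.2))) (Set.toFinite W) hWne
    simp only at hP1 hQ1 hPQ1 hmax
    let I : Subgroup G := DC D (P1 ⊓ Q1)
    have hIdem : DC D I = I := DC_idem D _
    have hIP : I ≤ P1 := (DC_le D _).trans inf_le_left
    have hIQ : I ≤ Q1 := (DC_le D _).trans inf_le_right
    by_cases hI : I = ⊥
    · -- all distinct maximal D-subgroups intersect trivially in D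
      have htriv : ∀ A B : Subgroup G, M A → M B → A ≠ B → ∀ z ∈ D, z ∈ A → z ∈ B → z = 1 := by
        intro A B hA hB hAB z hz hzA hzB
        have h1 := hmax (A, B) ⟨hA, hB, hAB⟩
        have h2 : Nat.card (DC D (P1 ⊓ Q1)) = 1 := by
          change Nat.card I = 1
          rw [hI]; simp
        simp only at h1
        rw [h2] at h1
        have h3 : DC D (A ⊓ B) = ⊥ := Subgroup.card_le_one_iff_eq_bot _ |>.mp h1
        have h4 : z ∈ DC D (A ⊓ B) := mem_DC D hz ⟨hzA, hzB⟩
        rw [h3] at h4
        exact Subgroup.mem_bot.mp h4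
      have hPn : ¬ P.Normal := by
        intro hn
        have h1 := hDS P hMP.prop
        have h2 := hsol P hn inferInstance
        rw [h2] at hxP
        exact hx1 (Subgroup.mem_bot.mp hxP)
      have hNne : Subgroup.normalizer (P : Set G) ≠ ⊤ := by
        intro h
        exact hPn (Subgroup.normalizer_eq_top_iff.mp h)
      obtain ⟨w, hw⟩ : ∃ w, w ∉ Subgroup.normalizer (P : Set G) := by
        by_contra h
        push Not at h
        exact hNne (eq_top_iff.mpr (fun w _ => h w))
      obtain ⟨n, hn⟩ := hE x hxD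
      -- find the last element outside the normaliser
      have hstep : ∃ k, (fun y : G => y⁻¹ * x⁻¹ * y * x)^[k] w ∉ Subgroup.normalizer (P : Set G) ∧
          (fun y : G => y⁻¹ * x⁻¹ * y * x)^[k + 1] w ∈ Subgroup.normalizer (P : Set G) := by
        by_contra h
        push Not at h
        have : ∀ k, (fun y : G => y⁻¹ * x⁻¹ * y * x)^[k] w ∉ Subgroup.normalizer (P : Set G) := by
          intro k
          induction k with
          | zero => exact hw
          | succ k ihk => exact h k ihk
        exact this n (by rw [hn w]; exact Subgroup.one_mem _)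
      obtain ⟨k, hk1, hk2⟩ := hstep
      set z := (fun y : G => y⁻¹ * x⁻¹ * y * x)^[k] w with hz
      rw [Function.iterate_succ_apply', ← hz] at hk2
      have hPN : P ≤ Subgroup.normalizer (P : Set G) := Subgroup.le_normalizer
      have hzx : z⁻¹ * x * z ∈ Subgroup.normalizer (P : Set G) := by
        have h1 := Subgroup.mul_mem _ hk2 (Subgroup.inv_mem _ (hPN hxP))
        have h2 : z⁻¹ * x⁻¹ * z * x * x⁻¹ = (z⁻¹ * x * z)⁻¹ := by group
        rw [h2] at h1
        exact (Subgroup.inv_mem_iff _).mp h1
      have hzD : z⁻¹ * x * z ∈ D := by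
        have := hconj x hxD z⁻¹
        simpa using this
      have hzP : z⁻¹ * x * z ∈ P := by
        have h1 : DS D (DC D (Subgroup.normalizer (P : Set G))) := DS_of_ne_top D hNne
        have h2 : P ≤ DC D (Subgroup.normalizer (P : Set G)) := by
          have h3 : DC D P ≤ DC D (Subgroup.normalizer (P : Set G)) :=
            DC_mono D (fun x _ hx => hPN hx)
          rwa [hMP.prop.2] at h3
        exact hMP.le_of_ge h1 h2 (mem_DC D hzD hzx)
      -- the conjugate of P
      let P' : Subgroup G := P.map (MulAut.conj z⁻¹).toMonoidHom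
      have hP'card : Nat.card P' = Nat.card P :=
        Subgroup.card_map_of_injective (MulAut.conj z⁻¹).injective
      have hP' : DS D P' := by
        constructor
        · intro h
          apply hMP.prop.1
          have h1 : Nat.card P = Nat.card G := by
            rw [← hP'card, h, Subgroup.card_top]
          exact Subgroup.eq_top_of_card_eq P h1
        · apply le_antisymm (DC_le D _)
          have h1 := hMP.prop.2
          change P.map (MulAut.conj z⁻¹).toMonoidHom ≤ _
          rw [Subgroup.map_le_iff_le_comap]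
          nth_rw 1 [← h1]
          rw [DC, Subgroup.closure_le]
          rintro v ⟨hvD, hvP⟩
          change (MulAut.conj z⁻¹) v ∈ DC D P'
          refine mem_DC D ?_ ⟨v, hvP, rfl⟩
          rw [MulAut.conj_apply]
          exact hconj v hvD z⁻¹
      obtain ⟨P2, hP'2, hMP2⟩ := hMex P' hP'
      have hne2 : P ≠ P2 := by
        intro h
        rw [← h] at hP'2
        have h1 : P' = P := Subgroup.eq_of_le_of_card_ge hP'2 hP'card.ge
        apply hk1
        have h2 : z⁻¹ ∈ Subgroup.normalizer (P : Set G) := by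
          rw [Subgroup.mem_normalizer_iff_map_conj_eq]
          exact h1
        exact (Subgroup.inv_mem_iff _).mp h2
      have h1 := htriv P P2 hMP hMP2 hne2 _ hzD hzP (hP'2 ⟨x, hxP, by
        change (MulAut.conj z⁻¹) x = _
        rw [MulAut.conj_apply, inv_inv]⟩)
      apply hx1
      have h2 : x = z * (z⁻¹ * x * z) * z⁻¹ := by group
      rw [h2, h1]; group
    · -- I is nontrivial, hence not normal
      have hIn : ¬ I.Normal := by
        intro hn
        have h1 := hDS P1 hP1.prop
        have h2 : Group.IsSolvable I := by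
          have h3 : Group.IsSolvable P1 := inferInstance
          exact Group.isSolvable_of_isSolvable_injective (f := Subgroup.inclusion hIP)
            (Subgroup.inclusion_injective hIP)
        exact hI (hsol I hn h2)
      have hNne : Subgroup.normalizer (I : Set G) ≠ ⊤ := by
        intro h
        exact hIn (Subgroup.normalizer_eq_top_iff.mp h)
      obtain ⟨P', hP', hMP'⟩ := hMex _ (DS_of_ne_top D hNne)
      have hclaim : ∀ A B : Subgroup G, M A → M B → A ≠ B → DC D (A ⊓ B) = I → A = P' := by
        intro A B hA hB hAB hABI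
        by_contra hne
        have hIA : I ≤ A := by rw [← hABI]; exact (DC_le D _).trans inf_le_left
        have hIB : I ≤ B := by rw [← hABI]; exact (DC_le D _).trans inf_le_right
        obtain ⟨a, haD, haA, haI, haN⟩ := exists_normalizing D hconj A I (hDS A hA.prop) hIA hIdem
          (by
            by_contra h
            push Not at h
            have h1 : A ≤ I := by
              have h2 : DC D A ≤ DC D I := DC_mono D h
              rwa [hA.prop.2, hIdem] at h2
            have h3 : A ≤ B := h1.trans hIB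
            exact hAB (le_antisymm h3 (hA.le_of_ge hB.prop h3)))
        have h1 := hmax (A, P') ⟨hA, hMP', hne⟩
        simp only at h1
        have h2 : I ≤ DC D (A ⊓ P') := by
          have h3 : DC D I ≤ DC D (A ⊓ P') := by
            refine DC_mono D (fun v hv hvI => ⟨hIA hvI, hP' (mem_DC D hv ?_)⟩)
            exact Subgroup.le_normalizer hvI
          rwa [hIdem] at h3
        have h4 : a ∈ DC D (A ⊓ P') := mem_DC D haD ⟨haA, hP' (mem_DC D haD haN)⟩
        have h5 : I = DC D (A ⊓ P') := Subgroup.eq_of_le_of_card_ge h2 h1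
        rw [h5] at haI
        exact haI h4
      have e1 := hclaim P1 Q1 hP1 hQ1 hPQ1 rfl
      have e2 := hclaim Q1 P1 hQ1 hP1 (Ne.symm hPQ1) (by rw [inf_comm])
      exact hPQ1 (e1.trans e2.symm)

/-- **Baer**: a finite group generated by left Engel elements is nilpotent. -/
theorem baer {G : Type u} [Group G] [Finite G] (S : Set G) (hS : Subgroup.closure S = ⊤)
    (hE : ∀ a ∈ S, ∃ n, LEngel n a) : Group.IsNilpotent G := by
  refine baer_aux (Nat.card G) le_rfl {x | ∃ a ∈ S, ∃ g : G, x = g * a * g⁻¹} ?_ ?_ ?_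
  · rintro _ ⟨a, ha, g, rfl⟩ h
    exact ⟨a, ha, h * g, by group⟩
  · rintro _ ⟨a, ha, g, rfl⟩
    obtain ⟨n, hn⟩ := hE a ha
    exact ⟨n, hn.conj g⟩
  · rw [eq_top_iff, ← hS, Subgroup.closure_le]
    intro a ha
    exact Subgroup.subset_closure ⟨a, ha, 1, by simp⟩

end Pool.Agent.Helper45.Eng
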