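import Mathlib

set_option autoImplicit false

/-!
A nilpotent linear group of degree `t` over an algebraically closed field is soluble of derived
length at most `2 t`.
-/

namespace Pool.Agent.Helper45.Eng

universe u v w

open scoped commutatorElement

section

variable {k : Type u} [Field k]

/-- The restriction of a representation to an invariant subspace. -/
def resRep {R : Type u} [CommRing R] {V : Type v} [AddCommGroup V] [Module R V] {G : Type w}
    [Group G] (ρ : G →* Module.End R V) (W : Submodule R V) (hW : ∀ g, ∀ v ∈ W, ρ g v ∈ W) :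
    G →* Module.End R W where
  toFun g := (ρ g).restrict (hW g)
  map_one' := by ext x; simp
  map_mul' a b := by ext x; simp [LinearMap.restrict_apply]

/-- The quotient representation. -/
def quoRep {R : Type u} [CommRing R] {V : Type v} [AddCommGroup V] [Module R V] {G : Type w}
    [Group G] (ρ : G →* Module.End R V) (W : Submodule R V) (hW : ∀ g, ∀ v ∈ W, ρ g v ∈ W) :
    G →* Module.End R (V ⧸ W) where
  toFun g := W.mapQ W (ρ g) (hW g)
  map_one' := by ext x; simp
  map_mul' a b := by ext x; simp

theorem resRep_apply {R : Type u} [CommRing R] {V : Type v} [AddCommGroup V] [Module R V]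
    {G : Type w} [Group G] (ρ : G →* Module.End R V) (W : Submodule R V)
    (hW : ∀ g, ∀ v ∈ W, ρ g v ∈ W) (g : G) (x : W) :
    ((resRep ρ W hW g x : W) : V) = ρ g x := rfl

theorem quoRep_apply {R : Type u} [CommRing R] {V : Type v} [AddCommGroup V] [Module R V]
    {G : Type w} [Group G] (ρ : G →* Module.End R V) (W : Submodule R V)
    (hW : ∀ g, ∀ v ∈ W, ρ g v ∈ W) (g : G) (x : V) :
    quoRep ρ W hW g (W.mkQ x) = W.mkQ (ρ g x) := rfl

/-- If `derivedSeries G m` acts trivially on `W` and on `V/W`, then `derivedSeries G (m+1)` acts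
trivially on `V`. -/
theorem trivial_of_res_quo {R : Type u} [CommRing R] {V : Type v} [AddCommGroup V] [Module R V]
    {G : Type w} [Group G] (ρ : G →* Module.End R V) (W : Submodule R V) (m : ℕ)
    (h1 : ∀ g ∈ derivedSeries G m, ∀ v ∈ W, ρ g v = v)
    (h2 : ∀ g ∈ derivedSeries G m, ∀ v, ρ g v - v ∈ W) :
    ∀ g ∈ derivedSeries G (m + 1), ρ g = 1 := by
  have key : derivedSeries G (m + 1) ≤ ρ.ker := by
    rw [derivedSeries_succ, Subgroup.commutator_le]
    intro a ha b hb
    rw [MonoidHom.mem_ker]
    have hcomm : ρ (a * b) = ρ (b * a) := by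
      rw [map_mul, map_mul]
      ext v
      change ρ a (ρ b v) = ρ b (ρ a v)
      have e1 : ρ a (ρ b v) = ρ a v + (ρ b v - v) := by
        have := h1 a ha _ (h2 b hb v)
        rw [map_sub] at this
        rw [sub_eq_iff_eq_add] at this
        rw [this]; abel
      have e2 : ρ b (ρ a v) = ρ b v + (ρ a v - v) := by
        have := h1 b hb _ (h2 a ha v)
        rw [map_sub] at this
        rw [sub_eq_iff_eq_add] at this
        rw [this]; abel
      rw [e1, e2]; abel
    have h3 : ⁅a, b⁆ = (a * b) * (b * a)⁻¹ := by rw [commutatorElement_def]; group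
    rw [h3, map_mul, hcomm, ← map_mul]
    simp
  intro g hg
  exact MonoidHom.mem_ker.mp (key hg)

theorem derivedSeries_le_map_of_commutator_le {G : Type w} [Group G] (H : Subgroup G)
    (hH : commutator G ≤ H) (m : ℕ) :
    derivedSeries G (m + 1) ≤ (derivedSeries H m).map H.subtype := by
  induction m with
  | zero =>
    rw [derivedSeries_one, derivedSeries_zero, ← MonoidHom.range_eq_map, Subgroup.range_subtype]
    exact hH
  | succ m ih =>
    rw [derivedSeries_succ G (m + 1), derivedSeries_succ H m, Subgroup.map_commutator]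
    exact Subgroup.commutator_mono ih ih

/-- In a nilpotent group which is not commutative modulo a normal subgroup `K`, there is a
noncentral element all of whose commutators are central (modulo `K`). -/
theorem exists_second_center {G : Type w} [Group G] [Group.IsNilpotent G]
    (h : ¬ ∀ a b : G, a * b = b * a) :
    ∃ z : G, (∃ g, z * g ≠ g * z) ∧ ∀ g x : G, ⁅z, g⁆ * x = x * ⁅z, g⁆ := by
  by_contra hcon
  push Not at hcon
  have key : ∀ n, Subgroup.upperCentralSeries G n ≤ Subgroup.center G := by
    intro n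
    induction n with
    | zero => simp
    | succ n ih =>
      intro z hz
      rw [Subgroup.mem_upperCentralSeries_succ_iff] at hz
      by_contra hzc
      have h1 : ∃ g, z * g ≠ g * z := by
        by_contra h2
        push Not at h2
        exact hzc (Subgroup.mem_center_iff.mpr (fun g => (h2 g).symm))
      obtain ⟨g, hg⟩ := h1
      obtain ⟨g', x, hx⟩ := hcon z ⟨g, hg⟩
      exact hx ((Subgroup.mem_center_iff.mp (ih (hz g')) x).symm)
  obtain ⟨n, hn⟩ := Group.IsNilpotent.nilpotent G
  apply h
  intro a b
  have ha : a ∈ Subgroup.center G := key n (by rw [hn]; exact Subgroup.mem_top a)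
  exact (Subgroup.mem_center_iff.mp ha b).symm

theorem nil_lin (t : ℕ) : ∀ {k : Type u} [Field k] [IsAlgClosed k] {V : Type v}
    [AddCommGroup V] [Module k V] [FiniteDimensional k V] {G : Type w} [Group G]
    [Group.IsNilpotent G] (ρ : G →* Module.End k V), Module.finrank k V ≤ t →
    ∀ g ∈ derivedSeries G (2 * t), ρ g = 1 := by
  induction t with
  | zero =>
    intro k _ _ V _ _ _ G _ _ ρ ht g _
    have : Subsingleton V := Module.finrank_zero_iff.mp (Nat.le_zero.mp ht)
    exact Subsingleton.elim _ _
  | succ t ih =>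
    -- the reducible case
    have hred : ∀ {k : Type u} [Field k] [IsAlgClosed k] {V : Type v}
        [AddCommGroup V] [Module k V] [FiniteDimensional k V] {H : Type w} [Group H]
        [Group.IsNilpotent H] (ρ : H →* Module.End k V), Module.finrank k V ≤ t + 1 →
        ∀ W : Submodule k V, W ≠ ⊥ → W ≠ ⊤ → (∀ g, ∀ v ∈ W, ρ g v ∈ W) →
        ∀ g ∈ derivedSeries H (2 * t + 1), ρ g = 1 := by
      intro k _ _ V _ _ _ H _ _ ρ hd W hW0 hW1 hWi
      have hfW : Module.finrank k W ≤ t := by
        have h1 : Module.finrank k W < Module.finrank k V := Submodule.finrank_lt hW1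
        omega
      have hfQ : Module.finrank k (V ⧸ W) ≤ t := by
        have h1 := Submodule.finrank_quotient_add_finrank W
        have h2 : Module.finrank k W ≠ 0 := by
          intro h
          exact hW0 (Submodule.finrank_eq_zero.mp h)
        omega
      refine trivial_of_res_quo ρ W (2 * t) ?_ ?_
      · intro g hg v hv
        have := ih (resRep ρ W hWi) hfW g hg
        have h3 : ((resRep ρ W hWi g ⟨v, hv⟩ : W) : V) = v := by rw [this]; rfl
        exact h3
      · intro g hg v
        have := ih (quoRep ρ W hWi) hfQ g hg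
        have h3 : quoRep ρ W hWi g (W.mkQ v) = W.mkQ v := by rw [this]; rfl
        rw [quoRep_apply] at h3
        have h4 : W.mkQ (ρ g v - v) = 0 := by rw [map_sub, h3, sub_self]
        exact (Submodule.Quotient.mk_eq_zero W).mp h4
    intro k _ _ V _ _ _ G _ _ ρ hd g hg
    by_cases hirr : ∃ W : Submodule k V, W ≠ ⊥ ∧ W ≠ ⊤ ∧ ∀ g, ∀ v ∈ W, ρ g v ∈ W
    · obtain ⟨W, h0, h1, hi⟩ := hirr
      exact hred ρ hd W h0 h1 hi g (derivedSeries_antitone G (by omega) hg)
    push Not at hirr
    -- Schur
    by_cases hV : Subsingleton V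
    · exact Subsingleton.elim _ _
    have hVn : Nontrivial V := not_subsingleton_iff_nontrivial.mp hV
    have hschur : ∀ φ : Module.End k V, (∀ g, φ * ρ g = ρ g * φ) → ∃ c : k, φ = c • 1 := by
      intro φ hφ
      obtain ⟨c, hc⟩ := Module.End.exists_eigenvalue φ
      refine ⟨c, ?_⟩
      have hW0 : Module.End.eigenspace φ c ≠ ⊥ := hc
      have hinv : ∀ g, ∀ v ∈ Module.End.eigenspace φ c, ρ g v ∈ Module.End.eigenspace φ c := by
        intro g v hv
        rw [Module.End.mem_eigenspace_iff] at hv ⊢
        have h1 : φ (ρ g v) = ρ g (φ v) := by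
          have := congrArg (fun f : Module.End k V => f v) (hφ g)
          exact this
        rw [h1, hv, map_smul]
      have hW1 : Module.End.eigenspace φ c = ⊤ := by
        by_contra hne
        obtain ⟨g, v, hv, hgv⟩ := hirr _ hW0 hne
        exact hgv (hinv g v hv)
      ext v
      have hv : v ∈ Module.End.eigenspace φ c := by rw [hW1]; trivial
      rw [Module.End.mem_eigenspace_iff] at hv
      simpa using hv
    -- pass to the image
    let K : Subgroup G := ρ.ker
    let ρb : G ⧸ K →* Module.End k V := QuotientGroup.lift K ρ (fun x hx => hx)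
    have hρb : ∀ g : G, ρb (QuotientGroup.mk' K g) = ρ g := fun g => rfl
    have hinj : ∀ a b : G, ρ a = ρ b ↔ QuotientGroup.mk' K a = QuotientGroup.mk' K b := by
      intro a b
      constructor
      · intro h
        rw [QuotientGroup.mk'_apply, QuotientGroup.mk'_apply, QuotientGroup.eq]
        change ρ (a⁻¹ * b) = 1
        rw [map_mul, ← h, ← map_mul]; simp
      · intro h
        rw [← hρb, h, hρb]
    by_cases hab : ∀ a b : G ⧸ K, a * b = b * a
    · have h1 : derivedSeries G 1 ≤ K := by
        rw [derivedSeries_one, commutator_def, Subgroup.commutator_le]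
        intro a _ b _
        change ρ ⁅a, b⁆ = 1
        have h2 : ⁅a, b⁆ = (a * b) * (b * a)⁻¹ := by rw [commutatorElement_def]; group
        have h3 : ρ (a * b) = ρ (b * a) := by
          rw [hinj, map_mul, map_mul, hab]
        rw [h2, map_mul, h3, ← map_mul]; simp
      exact h1 (derivedSeries_antitone G (by omega) hg)
    · obtain ⟨zb, ⟨gb, hgb⟩, hz⟩ := exists_second_center hab
      obtain ⟨z, rfl⟩ := QuotientGroup.mk'_surjective K zb
      obtain ⟨g0, rfl⟩ := QuotientGroup.mk'_surjective K gb
      have hnc : ρ z * ρ g0 ≠ ρ g0 * ρ z := by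
        intro h
        apply hgb
        rw [← map_mul, ← map_mul, ← hinj, map_mul, map_mul, h]
      -- scalars
      have hχ : ∀ a : G, ∃ c : k, ρ z * ρ a = c • (ρ a * ρ z) := by
        intro a
        obtain ⟨c, hc⟩ := hschur (ρ ⁅z, a⁆) (by
          intro x
          rw [← map_mul, ← map_mul, hinj]
          have := hz (QuotientGroup.mk' K a) (QuotientGroup.mk' K x)
          rw [commutatorElement_def, ← map_mul, ← map_inv, ← map_mul, ← map_inv, ← map_mul,
            ← map_mul, ← map_mul] at this
          exact this)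
        refine ⟨c, ?_⟩
        have h1 : z * a = ⁅z, a⁆ * (a * z) := by rw [commutatorElement_def]; group
        rw [← map_mul, h1, map_mul, hc, smul_mul_assoc, one_mul, map_mul]
      let H : Subgroup G :=
        { carrier := {x | ρ z * ρ x = ρ x * ρ z}
          one_mem' := by simp
          mul_mem' := by
            intro a b ha hb
            simp only [Set.mem_ofPred_eq] at ha hb ⊢
            rw [map_mul, ← mul_assoc, ha, mul_assoc, hb, mul_assoc]
          inv_mem' := by
            intro a ha
            simp only [Set.mem_ofPred_eq] at ha ⊢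
            have h1 : ρ a⁻¹ * ρ a = 1 := by rw [← map_mul]; simp
            have h2 : ρ a * ρ a⁻¹ = 1 := by rw [← map_mul]; simp
            calc ρ z * ρ a⁻¹ = (ρ a⁻¹ * ρ a) * (ρ z * ρ a⁻¹) := by rw [h1, one_mul]
              _ = ρ a⁻¹ * (ρ a * ρ z) * ρ a⁻¹ := by simp only [mul_assoc]
              _ = ρ a⁻¹ * (ρ z * ρ a) * ρ a⁻¹ := by rw [ha]
              _ = ρ a⁻¹ * ρ z * (ρ a * ρ a⁻¹) := by simp only [mul_assoc]
              _ = ρ a⁻¹ * ρ z := by rw [h2, mul_one] }
      have hH : commutator G ≤ H := by
        rw [commutator_def, Subgroup.commutator_le]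
        intro a _ b _
        change ρ z * ρ ⁅a, b⁆ = ρ ⁅a, b⁆ * ρ z
        obtain ⟨ca, hca⟩ := hχ a
        obtain ⟨cb, hcb⟩ := hχ b
        have hba : ρ z * ρ (b * a) = (ca * cb) • (ρ (b * a) * ρ z) := by
          rw [map_mul, ← mul_assoc, hcb, smul_mul_assoc, mul_assoc, hca, mul_smul_comm, smul_smul,
            mul_comm cb ca, mul_assoc]
        have hab' : ρ z * ρ (a * b) = (ca * cb) • (ρ (a * b) * ρ z) := by
          rw [map_mul, ← mul_assoc, hca, smul_mul_assoc, mul_assoc, hcb, mul_smul_comm, smul_smul,
            mul_assoc]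
        have h1 : a * b = ⁅a, b⁆ * (b * a) := by rw [commutatorElement_def]; group
        have h2 : ρ z * ρ ⁅a, b⁆ * ρ (b * a) = ρ ⁅a, b⁆ * ρ z * ρ (b * a) := by
          calc ρ z * ρ ⁅a, b⁆ * ρ (b * a) = ρ z * ρ (a * b) := by
                rw [mul_assoc, ← map_mul, ← h1]
            _ = (ca * cb) • (ρ (a * b) * ρ z) := hab'
            _ = (ca * cb) • (ρ ⁅a, b⁆ * (ρ (b * a) * ρ z)) := by
                rw [← mul_assoc (ρ ⁅a, b⁆), ← map_mul ρ ⁅a, b⁆, ← h1]
            _ = ρ ⁅a, b⁆ * (ρ z * ρ (b * a)) := by rw [hba, mul_smul_comm]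
            _ = ρ ⁅a, b⁆ * ρ z * ρ (b * a) := by rw [mul_assoc]
        have h3 : ρ (b * a) * ρ (b * a)⁻¹ = 1 := by rw [← map_mul]; simp
        calc ρ z * ρ ⁅a, b⁆ = ρ z * ρ ⁅a, b⁆ * ρ (b * a) * ρ (b * a)⁻¹ := by
              rw [mul_assoc (ρ z * ρ ⁅a, b⁆), h3, mul_one]
          _ = ρ ⁅a, b⁆ * ρ z * ρ (b * a) * ρ (b * a)⁻¹ := by rw [h2]
          _ = ρ ⁅a, b⁆ * ρ z := by rw [mul_assoc (ρ ⁅a, b⁆ * ρ z), h3, mul_one]
      obtain ⟨μ, hμ⟩ := Module.End.exists_eigenvalue (ρ z)
      have hW0 : Module.End.eigenspace (ρ z) μ ≠ ⊥ := hμ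
      have hW1 : Module.End.eigenspace (ρ z) μ ≠ ⊤ := by
        intro h
        apply hnc
        have h1 : ρ z = μ • 1 := by
          ext v
          have hv : v ∈ Module.End.eigenspace (ρ z) μ := by rw [h]; trivial
          rw [Module.End.mem_eigenspace_iff] at hv
          simpa using hv
        rw [h1, smul_mul_assoc, one_mul, mul_smul_comm, mul_one]
      have hWi : ∀ x : H, ∀ v ∈ Module.End.eigenspace (ρ z) μ,
          (ρ.comp H.subtype) x v ∈ Module.End.eigenspace (ρ z) μ := by
        intro x v hv
        rw [Module.End.mem_eigenspace_iff] at hv ⊢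
        have h1 : ρ z (ρ (x : G) v) = ρ (x : G) (ρ z v) := by
          have := congrArg (fun f : Module.End k V => f v) x.2
          exact this
        change ρ z (ρ (x : G) v) = μ • ρ (x : G) v
        rw [h1, hv, map_smul]
      have hfin := hred (ρ.comp H.subtype) hd _ hW0 hW1 hWi
      have h4 : derivedSeries G (2 * (t + 1)) ≤ (derivedSeries H (2 * t + 1)).map H.subtype :=
        derivedSeries_le_map_of_commutator_le H hH (2 * t + 1)
      obtain ⟨x, hx, rfl⟩ := h4 hg
      exact hfin x hx

end

end Pool.Agent.Helper45.Eng
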