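import Pool.Agent.Helper45.Eng.Baer
import Pool.Agent.Helper45.Eng.NilLin

set_option autoImplicit false

/-!
A linear group over a field generated by finitely many left Engel elements is soluble.
-/

namespace Pool.Agent.Helper45.Eng

universe u v w

open scoped commutatorElement

theorem isJacobsonRing_int : IsJacobsonRing ℤ := by
  rw [isJacobsonRing_iff_prime_eq]
  intro P hP
  by_cases h : P = ⊥
  · subst h
    rw [eq_bot_iff]
    intro x hx
    rw [Ideal.mem_jacobson_iff] at hx
    obtain ⟨z, hz⟩ := hx x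
    have h1 : z * (x * x + 1) = 1 := by
      have : z * x * x + z - 1 = 0 := by simpa using hz
      linarith
    have h2 : IsUnit (x * x + 1) := IsUnit.of_mul_eq_one z (by rw [mul_comm]; exact h1)
    rcases Int.isUnit_iff.mp h2 with h3 | h3
    · have : x * x = 0 := by linarith
      simpa using this
    · nlinarith [mul_self_nonneg x]
  · have : P.IsMaximal := Ring.DimensionLEOne.maximalOfPrime h hP
    exact Ideal.jacobson_eq_self_of_isMaximal

/-- A field which is a finitely generated ring is finite. -/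
theorem finite_of_finiteType_int (k : Type u) [Field k] [Algebra.FiniteType ℤ k] : Finite k := by
  have := isJacobsonRing_int
  have hf : Module.Finite ℤ k := finite_of_finite_type_of_isJacobsonRing ℤ k
  by_cases hinj : Function.Injective (algebraMap ℤ k)
  · exfalso
    have hint : Algebra.IsIntegral ℤ k := inferInstance
    exact Int.not_isField (isField_of_isIntegral_of_isField hinj (Field.toIsField k))
  · have h0 : ∃ n : ℤ, n ≠ 0 ∧ (n : k) = 0 := by
      rw [injective_iff_map_eq_zero] at hinj
      push Not at hinj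
      obtain ⟨n, h1, h2⟩ := hinj
      exact ⟨n, h2, by simpa using h1⟩
    obtain ⟨n, hn, hn0⟩ := h0
    refine Module.finite_of_fg_torsion k ?_
    intro x
    refine ⟨⟨n, mem_nonZeroDivisors_of_ne_zero hn⟩, ?_⟩
    change n • x = 0
    rw [zsmul_eq_mul, hn0, zero_mul]

theorem finite_quotient {R : Type u} [CommRing R] [Algebra.FiniteType ℤ R] (m : Ideal R)
    (hm : m.IsMaximal) : Finite (R ⧸ m) := by
  have h : @Algebra.FiniteType ℤ (R ⧸ m) _ _ (Ring.toIntAlgebra (R ⧸ m)) :=
    Algebra.FiniteType.of_surjective (Ideal.Quotient.mk m).toIntAlgHom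
      Ideal.Quotient.mk_surjective
  exact @finite_of_finiteType_int (R ⧸ m) (Ideal.Quotient.field m) h

theorem mem_derivedSeries_map {G : Type u} [Group G] {H : Type v} [Group H] (f : G →* H) (m : ℕ)
    {g : G} (hg : g ∈ derivedSeries G m) : f g ∈ derivedSeries H m :=
  map_derivedSeries_le_derivedSeries f m ⟨g, hg, rfl⟩

/-- Specialisation at a finite field. -/
theorem finite_field_case {k : Type u} [Field k] [Finite k] (t : ℕ) {G : Type w} [Group G]
    (S : Set G) (hS : Subgroup.closure S = ⊤) (hE : ∀ a ∈ S, ∃ n, LEngel n a)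
    (ρ : G →* Matrix (Fin t) (Fin t) k) : ∀ g ∈ derivedSeries G (2 * t), ρ g = 1 := by
  intro g hg
  let kb := AlgebraicClosure k
  let f : Matrix (Fin t) (Fin t) k →+* Matrix (Fin t) (Fin t) kb := (algebraMap k kb).mapMatrix
  let e : Matrix (Fin t) (Fin t) kb ≃ₐ[kb] Module.End kb (Fin t → kb) := Matrix.toLinAlgEquiv'
  let φ : G →* Module.End kb (Fin t → kb) :=
    (e : Matrix (Fin t) (Fin t) kb →* Module.End kb (Fin t → kb)).comp
      ((f : Matrix (Fin t) (Fin t) k →* Matrix (Fin t) (Fin t) kb).comp ρ)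
  have hφ : ∀ x, φ x = e (f (ρ x)) := fun x => rfl
  have hfinj : Function.Injective f := by
    intro a b hab
    ext i j
    have := congrFun (congrFun hab i) j
    exact (algebraMap k kb).injective this
  have hker : ρ.ker = φ.ker := by
    ext x
    rw [MonoidHom.mem_ker, MonoidHom.mem_ker, hφ]
    constructor
    · intro h; rw [h, map_one, map_one]
    · intro h
      apply hfinj
      rw [map_one]
      apply e.injective
      rw [h, map_one]
  let Q := G ⧸ ρ.ker
  let ρ' : Q →* Matrix (Fin t) (Fin t) k := QuotientGroup.lift ρ.ker ρ (fun x hx => hx)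
  have hinj : Function.Injective ρ' := by
    intro a b hab
    obtain ⟨a, rfl⟩ := QuotientGroup.mk'_surjective _ a
    obtain ⟨b, rfl⟩ := QuotientGroup.mk'_surjective _ b
    have h1 : ρ a = ρ b := hab
    rw [QuotientGroup.mk'_apply, QuotientGroup.mk'_apply, QuotientGroup.eq, MonoidHom.mem_ker,
      map_mul, ← h1, ← map_mul]
    simp
  have hfin : Finite Q := Finite.of_injective ρ' hinj
  have hnil : Group.IsNilpotent Q := by
    refine baer ((QuotientGroup.mk' ρ.ker) '' S) ?_ ?_
    · rw [← MonoidHom.map_closure, hS]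
      exact Subgroup.map_top_of_surjective _ (QuotientGroup.mk'_surjective _)
    · rintro _ ⟨a, ha, rfl⟩
      obtain ⟨n, hn⟩ := hE a ha
      exact ⟨n, hn.map (QuotientGroup.mk'_surjective _)⟩
  let φ' : Q →* Module.End kb (Fin t → kb) :=
    (e : Matrix (Fin t) (Fin t) kb →* Module.End kb (Fin t → kb)).comp
      ((f : Matrix (Fin t) (Fin t) k →* Matrix (Fin t) (Fin t) kb).comp ρ')
  have h1 := nil_lin t φ' (by simp) (QuotientGroup.mk' ρ.ker g) (mem_derivedSeries_map _ _ hg)
  have h2 : φ g = 1 := h1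
  rw [← MonoidHom.mem_ker, ← hker] at h2
  exact h2

theorem field_case {K : Type u} [Field K] {V : Type v} [AddCommGroup V] [Module K V]
    [FiniteDimensional K V] {G : Type w} [Group G] (S : Set G) (hSf : S.Finite)
    (hS : Subgroup.closure S = ⊤) (hE : ∀ a ∈ S, ∃ n, LEngel n a)
    (ρ : G →* Module.End K V) : ∃ m, ∀ g ∈ derivedSeries G m, ρ g = 1 := by
  classical
  set t := Module.finrank K V with ht
  let b : Module.Basis (Fin t) K V := Module.finBasis K V
  let e : Module.End K V ≃ₐ[K] Matrix (Fin t) (Fin t) K := LinearMap.toMatrixAlgEquiv b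
  let ρM : G →* Matrix (Fin t) (Fin t) K :=
    (e : Module.End K V →* Matrix (Fin t) (Fin t) K).comp ρ
  have hρM : ∀ g, ρM g = e (ρ g) := fun g => rfl
  let T : Finset G := hSf.toFinset ∪ hSf.toFinset.image (fun s => s⁻¹)
  let E : Finset K := T.biUnion (fun s => Finset.univ.image
    (fun p : Fin t × Fin t => ρM s p.1 p.2))
  let R1 : Subalgebra ℤ K := Algebra.adjoin ℤ (E : Set K)
  have hEsub : ∀ s ∈ T, ∀ i j, ρM s i j ∈ R1 := by
    intro s hs i j
    apply Algebra.subset_adjoin
    rw [Finset.mem_coe, Finset.mem_biUnion]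
    exact ⟨s, hs, Finset.mem_image.mpr ⟨(i, j), Finset.mem_univ _, rfl⟩⟩
  have hmul : ∀ A B : Matrix (Fin t) (Fin t) K, (∀ i j, A i j ∈ R1) → (∀ i j, B i j ∈ R1) →
      ∀ i j, (A * B) i j ∈ R1 := by
    intro A B hA hB i j
    rw [Matrix.mul_apply]
    exact Subalgebra.sum_mem _ (fun l _ => Subalgebra.mul_mem _ (hA i l) (hB l j))
  have hone : ∀ i j, (1 : Matrix (Fin t) (Fin t) K) i j ∈ R1 := by
    intro i j
    rw [Matrix.one_apply]
    split_ifs
    · exact Subalgebra.one_mem _
    · exact Subalgebra.zero_mem _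
  have hall : ∀ g : G, (∀ i j, ρM g i j ∈ R1) ∧ (∀ i j, ρM g⁻¹ i j ∈ R1) := by
    intro g
    have hg : g ∈ Subgroup.closure S := by rw [hS]; exact Subgroup.mem_top g
    induction hg using Subgroup.closure_induction with
    | mem x hx =>
      refine ⟨hEsub x ?_, hEsub x⁻¹ ?_⟩
      · exact Finset.mem_union_left _ ((Set.Finite.mem_toFinset _).mpr hx)
      · exact Finset.mem_union_right _ (Finset.mem_image.mpr
          ⟨x, (Set.Finite.mem_toFinset _).mpr hx, rfl⟩)
    | one =>
      refine ⟨?_, ?_⟩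
      · rw [map_one]; exact hone
      · rw [inv_one, map_one]; exact hone
    | mul x y _ _ hx hy =>
      refine ⟨?_, ?_⟩
      · rw [map_mul]; exact hmul _ _ hx.1 hy.1
      · rw [mul_inv_rev, map_mul]; exact hmul _ _ hy.2 hx.2
    | inv x _ hx => exact ⟨hx.2, by rw [inv_inv]; exact hx.1⟩
  let ρ1 : G →* Matrix (Fin t) (Fin t) R1 :=
    { toFun := fun g => Matrix.of (fun i j => ⟨ρM g i j, (hall g).1 i j⟩)
      map_one' := by
        ext i j
        simp only [Matrix.of_apply, map_one]
        rw [Matrix.one_apply, Matrix.one_apply]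
        split_ifs <;> rfl
      map_mul' := by
        intro x y
        ext i j
        simp only [Matrix.of_apply, map_mul]
        rw [Matrix.mul_apply, Matrix.mul_apply]
        simp [Matrix.of_apply] }
  have hρ1 : ∀ g i j, ((ρ1 g i j : R1) : K) = ρM g i j := fun g i j => rfl
  have hft : Algebra.FiniteType ℤ R1 :=
    (Subalgebra.fg_iff_finiteType R1).mp ⟨E, rfl⟩
  have hJZ := isJacobsonRing_int
  have hJ : IsJacobsonRing R1 := isJacobsonRing_of_finiteType (A := ℤ)
  refine ⟨2 * t, ?_⟩
  intro g hg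
  -- for every maximal ideal the specialised matrix is the identity
  have hmax : ∀ m : Ideal R1, m.IsMaximal → ∀ i j, (ρ1 g i j - (1 : Matrix (Fin t) (Fin t) R1) i j) ∈ m := by
    intro m hm i j
    let _ : Field (R1 ⧸ m) := Ideal.Quotient.field m
    have hfin : Finite (R1 ⧸ m) := @finite_quotient R1 _ (by convert! hft) m hm
    let π : Matrix (Fin t) (Fin t) R1 →+* Matrix (Fin t) (Fin t) (R1 ⧸ m) :=
      (Ideal.Quotient.mk m).mapMatrix
    have h1 := finite_field_case t S hS hE
      ((π : Matrix (Fin t) (Fin t) R1 →* Matrix (Fin t) (Fin t) (R1 ⧸ m)).comp ρ1) g hg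
    have h2 : π (ρ1 g) = π 1 := by rw [map_one]; exact h1
    have h3 := congrFun (congrFun h2 i) j
    have h4 : Ideal.Quotient.mk m (ρ1 g i j) =
      Ideal.Quotient.mk m ((1 : Matrix (Fin t) (Fin t) R1) i j) := h3
    exact (Ideal.Quotient.eq).mp h4
  have hjac : (⊥ : Ideal R1).jacobson = ⊥ := by
    have hP : (⊥ : Ideal R1).IsPrime := Ideal.isPrime_bot
    exact hJ.out hP.isRadical
  have hzero : ∀ i j, ρ1 g i j = (1 : Matrix (Fin t) (Fin t) R1) i j := by
    intro i j
    have h1 : (ρ1 g i j - (1 : Matrix (Fin t) (Fin t) R1) i j) ∈ (⊥ : Ideal R1).jacobson := by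
      rw [Ideal.jacobson, Submodule.mem_sInf]
      intro m hm
      exact hmax m hm.2 i j
    rw [hjac] at h1
    exact sub_eq_zero.mp h1
  have h5 : ρM g = 1 := by
    ext i j
    rw [← hρ1, hzero]
    rw [Matrix.one_apply, Matrix.one_apply]
    split_ifs <;> rfl
  rw [hρM] at h5
  apply e.injective
  rw [h5, map_one]

end Pool.Agent.Helper45.Eng
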