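import Pool.Agent.Helper45.Eng.Uniform

set_option autoImplicit false

/-!
Question 1 of MP_629dac_al for groups acting with soluble kernel on finitely generated modules over
commutative rings, in the form used by the hand-ins.
-/

namespace Pool.Agent.Helper45.Eng

/-- From a finite generating set to an indexed generating family. -/
theorem exists_fin_family {G : Type} [Group G] (S : Finset G) (d : ℕ) (hd : S.card ≤ d)
    (hS : Subgroup.closure (S : Set G) = ⊤) (n : ℕ)
    (hE : ∀ a ∈ S, LEngel n a) :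
    ∃ x : Fin d → G, Subgroup.closure (Set.range x) = ⊤ ∧ ∀ i, LEngel (n + 1) (x i) := by
  classical
  obtain ⟨e⟩ : Nonempty (Fin S.card ≃ S) := ⟨S.equivFin.symm⟩
  refine ⟨fun i => if h : (i : ℕ) < S.card then (e ⟨i, h⟩ : G) else 1, ?_, ?_⟩
  · rw [eq_top_iff, ← hS, Subgroup.closure_le]
    intro a ha
    apply Subgroup.subset_closure
    let j : Fin S.card := e.symm ⟨a, ha⟩
    refine ⟨⟨j, lt_of_lt_of_le j.2 hd⟩, ?_⟩
    simp only [Fin.is_lt, dif_pos]
    change ((e (e.symm ⟨a, ha⟩) : S) : G) = a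
    rw [e.apply_symm_apply]
  · intro i
    by_cases h : (i : ℕ) < S.card
    · simp only [h, dif_pos]
      exact LEngel.mono (Nat.le_succ n) (hE _ (e ⟨i, h⟩).2)
    · simp only [h, dif_neg, not_false_eq_true]
      exact LEngel.one (Nat.succ_le_succ (Nat.zero_le n))

theorem general : ∃ F : ℕ → ℕ → ℕ → ℕ → ℕ, ∀ (n d r s : ℕ) (R : Type) [CommRing R] (M : Type)
      [AddCommGroup M] [Module R M] (B : Finset M), B.card ≤ r →
      Submodule.span R (B : Set M) = ⊤ →
      ∀ (G : Type) [Group G] (S : Finset G), S.card ≤ d → Subgroup.closure (S : Set G) = ⊤ →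
      (∀ a ∈ S, ∀ x : G, (fun y : G => y⁻¹ * a⁻¹ * y * a)^[n] x = 1) →
      ∀ ρ : G →* Module.End R M, derivedSeries ρ.ker s = ⊥ →
      Group.IsNilpotent G ∧ Group.nilpotencyClass G ≤ F n d r s := by
  classical
  refine ⟨fun n d r s => (uniform (n + 1) d r s).choose, ?_⟩
  intro n d r s R _ M _ _ B hB hspan G _ S hd hS hE ρ hker
  obtain ⟨x, hx, hxE⟩ := exists_fin_family S d hd hS n hE
  -- indexed generating family of the module
  obtain ⟨b, hb⟩ : ∃ b : Fin r → M, Submodule.span R (Set.range b) = ⊤ := by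
    obtain ⟨e⟩ : Nonempty (Fin B.card ≃ B) := ⟨B.equivFin.symm⟩
    refine ⟨fun i => if h : (i : ℕ) < B.card then (e ⟨i, h⟩ : M) else 0, ?_⟩
    rw [eq_top_iff, ← hspan, Submodule.span_le]
    intro a ha
    apply Submodule.subset_span
    let j : Fin B.card := e.symm ⟨a, ha⟩
    refine ⟨⟨j, lt_of_lt_of_le j.2 hB⟩, ?_⟩
    simp only [Fin.is_lt, dif_pos]
    change ((e (e.symm ⟨a, ha⟩) : B) : M) = a
    rw [e.apply_symm_apply]
  exact (uniform (n + 1) d r s).choose_spec
    { R := R, instR := inferInstance, M := M, instM := inferInstance, instMod := inferInstance,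
      b := b, hb := hb, G := G, instG := inferInstance, x := x, hx := hx, hE := hxE, ρ := ρ,
      hker := hker }

end Pool.Agent.Helper45.Eng
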