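import Pool.Agent.Helper45.Eng.Noeth

set_option autoImplicit false

/-!
Removal of the Noetherian hypothesis.
-/

namespace Pool.Agent.Helper45.Eng

universe u v w

open scoped commutatorElement

theorem module_case {R : Type u} [CommRing R] {M : Type v} [AddCommGroup M]
    [Module R M] [Module.Finite R M] {G : Type w} [Group G] (S : Set G) (hSf : S.Finite)
    (hS : Subgroup.closure S = ⊤) (hE : ∀ a ∈ S, ∃ n, LEngel n a)
    (ρ : G →* Module.End R M) : ∃ m, ∀ g ∈ derivedSeries G m, ρ g = 1 := by
  classical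
  obtain ⟨r, b, hb⟩ := Module.Finite.exists_fin (R := R) (M := M)
  let T : Finset G := hSf.toFinset ∪ hSf.toFinset.image (fun s => s⁻¹)
  -- coefficients
  have hcoef : ∀ (g : G) (j : Fin r), ∃ c : Fin r → R, ρ g (b j) = ∑ i, c i • b i := by
    intro g j
    have h1 : ρ g (b j) ∈ Submodule.span R (Set.range b) := by rw [hb]; trivial
    obtain ⟨c, hc⟩ := (Submodule.mem_span_range_iff_exists_fun R).mp h1
    exact ⟨c, hc.symm⟩
  choose c hc using hcoef
  let E : Finset R := T.biUnion (fun s => Finset.univ.image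
    (fun p : Fin r × Fin r => c s p.1 p.2))
  let R0 : Subalgebra ℤ R := Algebra.adjoin ℤ (E : Set R)
  have hcR : ∀ s ∈ T, ∀ j i, c s j i ∈ R0 := by
    intro s hs j i
    apply Algebra.subset_adjoin
    rw [Finset.mem_coe, Finset.mem_biUnion]
    exact ⟨s, hs, Finset.mem_image.mpr ⟨(j, i), Finset.mem_univ _, rfl⟩⟩
  have hft : Algebra.FiniteType ℤ R0 := (Subalgebra.fg_iff_finiteType R0).mp ⟨E, rfl⟩
  have hnoeth : IsNoetherianRing R0 := Algebra.FiniteType.isNoetherianRing ℤ R0
  let M0 : Submodule R0 M := Submodule.span R0 (Set.range b)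
  have hM0 : Module.Finite R0 M0 := Module.Finite.iff_fg.mpr (Submodule.fg_span (Set.finite_range b))
  have hstab1 : ∀ s ∈ T, ∀ v ∈ M0, ρ s v ∈ M0 := by
    intro s hs v hv
    induction hv using Submodule.span_induction with
    | mem x hx =>
      obtain ⟨j, rfl⟩ := hx
      rw [hc]
      refine Submodule.sum_mem _ (fun i _ => ?_)
      have h1 : (⟨c s j i, hcR s hs j i⟩ : R0) • b i ∈ M0 :=
        Submodule.smul_mem _ _ (Submodule.subset_span ⟨i, rfl⟩)
      exact h1
    | zero => rw [map_zero]; exact zero_mem _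
    | add x y _ _ h1 h2 => rw [map_add]; exact add_mem h1 h2
    | smul a x _ h =>
      have h1 : ρ s (a • x) = a • ρ s x := by
        change ρ s ((a : R) • x) = (a : R) • ρ s x
        rw [map_smul]
      rw [h1]
      exact Submodule.smul_mem _ _ h
  have hstab : ∀ g : G, (∀ v ∈ M0, ρ g v ∈ M0) ∧ (∀ v ∈ M0, ρ g⁻¹ v ∈ M0) := by
    intro g
    have hg : g ∈ Subgroup.closure S := by rw [hS]; exact Subgroup.mem_top g
    induction hg using Subgroup.closure_induction with
    | mem x hx =>
      refine ⟨hstab1 x ?_, hstab1 x⁻¹ ?_⟩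
      · exact Finset.mem_union_left _ ((Set.Finite.mem_toFinset _).mpr hx)
      · exact Finset.mem_union_right _ (Finset.mem_image.mpr
          ⟨x, (Set.Finite.mem_toFinset _).mpr hx, rfl⟩)
    | one =>
      refine ⟨?_, ?_⟩
      · intro v hv; rw [map_one]; exact hv
      · intro v hv; rw [inv_one, map_one]; exact hv
    | mul x y _ _ hx hy =>
      refine ⟨?_, ?_⟩
      · intro v hv
        rw [map_mul]
        exact hx.1 _ (hy.1 v hv)
      · intro v hv
        rw [mul_inv_rev, map_mul]
        exact hy.2 _ (hx.2 v hv)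
    | inv x _ hx => exact ⟨hx.2, by rw [inv_inv]; exact hx.1⟩
  let ρ0 : G →* Module.End R0 M0 :=
    { toFun := fun g =>
        { toFun := fun v => ⟨ρ g v, (hstab g).1 v v.2⟩
          map_add' := by intro x y; ext; simp
          map_smul' := by
            intro a x
            ext
            change ρ g ((a : R) • (x : M)) = (a : R) • ρ g x
            rw [map_smul] }
      map_one' := by ext v; simp
      map_mul' := by intro x y; ext v; simp }
  obtain ⟨m, hm⟩ := noeth_case S hSf hS hE ρ0
  refine ⟨m, fun g hg => ?_⟩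
  have h1 : ∀ j, ρ g (b j) = b j := by
    intro j
    have h2 := congrArg (fun f : Module.End R0 M0 =>
      ((f ⟨b j, Submodule.subset_span ⟨j, rfl⟩⟩ : M0) : M)) (hm g hg)
    exact h2
  ext v
  have hv : v ∈ Submodule.span R (Set.range b) := by rw [hb]; trivial
  induction hv using Submodule.span_induction with
  | mem x hx => obtain ⟨j, rfl⟩ := hx; rw [h1]; rfl
  | zero => simp
  | add x y _ _ h1 h2 => rw [map_add, h1, h2]; rfl
  | smul a x _ h => rw [map_smul, h]; rfl

end Pool.Agent.Helper45.Eng
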