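import Pool.Agent.Helper45.Eng.FieldCase

set_option autoImplicit false

/-!
A group of automorphisms of a finitely generated module over a commutative ring which is generated
by finitely many left Engel elements is soluble.
-/

namespace Pool.Agent.Helper45.Eng

universe u v w

open scoped commutatorElement

theorem domain_case {R : Type u} [CommRing R] [IsDomain R] {M : Type v} [AddCommGroup M]
    [Module R M] [Module.Finite R M] (htf : ∀ r : R, r ≠ 0 → ∀ v : M, r • v = 0 → v = 0)
    {G : Type w} [Group G] (S : Set G) (hSf : S.Finite)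
    (hS : Subgroup.closure S = ⊤) (hE : ∀ a ∈ S, ∃ n, LEngel n a)
    (ρ : G →* Module.End R M) : ∃ m, ∀ g ∈ derivedSeries G m, ρ g = 1 := by
  let K := FractionRing R
  let B : Module.End R M →ₐ[R] Module.End K (TensorProduct R K M) := Module.End.baseChangeHom R K M
  obtain ⟨m, hm⟩ := field_case S hSf hS hE
    ((B : Module.End R M →* Module.End K (TensorProduct R K M)).comp ρ)
  refine ⟨m, fun g hg => ?_⟩
  have h1 : B (ρ g) = 1 := hm g hg
  let f : M →ₗ[R] TensorProduct R K M := TensorProduct.mk R K M 1
  have hloc : IsLocalizedModule (nonZeroDivisors R) f :=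
    (isLocalizedModule_iff_isBaseChange (nonZeroDivisors R) K f).mpr
      (TensorProduct.isBaseChange R M K)
  ext v
  have h2 : B (ρ g) (f v) = f (ρ g v) := LinearMap.baseChange_tmul (ρ g) (1 : K) v
  rw [h1] at h2
  have h3 : f (ρ g v - v) = 0 := by
    rw [map_sub, ← h2]
    exact sub_self _
  rw [IsLocalizedModule.eq_zero_iff (nonZeroDivisors R) f] at h3
  obtain ⟨⟨s, hs⟩, hs'⟩ := h3
  have h4 := htf s (nonZeroDivisors.ne_zero hs) _ hs'
  exact sub_eq_zero.mp h4

theorem quoRep_ker {R : Type u} [CommRing R] {V : Type v} [AddCommGroup V] [Module R V]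
    {G : Type w} [Group G] (ρ : G →* Module.End R V) (W : Submodule R V)
    (hW : ∀ g, ∀ v ∈ W, ρ g v ∈ W) (g : G) :
    g ∈ (quoRep ρ W hW).ker ↔ ∀ v, ρ g v - v ∈ W := by
  rw [MonoidHom.mem_ker]
  constructor
  · intro h v
    have h3 : quoRep ρ W hW g (W.mkQ v) = W.mkQ v := by rw [h]; rfl
    rw [quoRep_apply] at h3
    have h4 : W.mkQ (ρ g v - v) = 0 := by rw [map_sub, h3, sub_self]
    exact (Submodule.Quotient.mk_eq_zero W).mp h4
  · intro h
    ext v
    have h4 : W.mkQ (ρ g v - v) = 0 := (Submodule.Quotient.mk_eq_zero W).mpr (h v)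
    rw [map_sub, sub_eq_zero] at h4
    change quoRep ρ W hW g (W.mkQ v) = W.mkQ v
    rw [quoRep_apply, h4]

theorem smul_top_invariant {R : Type u} [CommRing R] {M : Type v} [AddCommGroup M]
    [Module R M] (I : Ideal R) (f : Module.End R M) (v : M)
    (hv : v ∈ (I • ⊤ : Submodule R M)) : f v ∈ (I • ⊤ : Submodule R M) := by
  have h1 : f v ∈ Submodule.map f (I • ⊤ : Submodule R M) := ⟨v, hv, rfl⟩
  rw [Submodule.map_smul''] at h1
  exact Submodule.smul_mono le_rfl le_top h1

/-- The critical case: all proper invariant quotients are already handled. -/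
theorem crit {R : Type u} [CommRing R] [IsNoetherianRing R] {M : Type v} [AddCommGroup M]
    [Module R M] [Module.Finite R M] {G : Type w} [Group G] (S : Set G) (hSf : S.Finite)
    (hS : Subgroup.closure S = ⊤) (hE : ∀ a ∈ S, ∃ n, LEngel n a)
    (ρ : G →* Module.End R M)
    (hprop : ∀ N : Submodule R M, N ≠ ⊥ → (∀ g, ∀ v ∈ N, ρ g v ∈ N) →
      ∃ m, ∀ g ∈ derivedSeries G m, ∀ v, ρ g v - v ∈ N) :
    ∃ m, ∀ g ∈ derivedSeries G m, ρ g = 1 := by
  by_cases hM : Subsingleton M
  · exact ⟨0, fun g _ => Subsingleton.elim _ _⟩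
  have hMn : Nontrivial M := not_subsingleton_iff_nontrivial.mp hM
  by_contra hcon
  have hcomm : ∀ (r : R) (k : ℕ) (g : G) (v : M), ρ g (r ^ k • v) = r ^ k • ρ g v :=
    fun r k g v => map_smul _ _ _
  -- every ring element acts injectively or nilpotently
  have hfit : ∀ r : R, (∀ v : M, r • v = 0 → v = 0) ∨ ∃ k, ∀ v : M, r ^ k • v = 0 := by
    intro r
    let f : Module.End R M := algebraMap R (Module.End R M) r
    have hf : ∀ k v, (f ^ k) v = r ^ k • v := by
      intro k v
      change ((algebraMap R (Module.End R M) r) ^ k) v = _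
      rw [← map_pow]; rfl
    have hev := Module.End.eventually_disjoint_ker_pow_range_pow f
    obtain ⟨k, hk, hk1⟩ := (hev.and (Filter.eventually_ge_atTop 1)).exists
    by_cases h1 : (f ^ k).ker = ⊥
    · left
      intro v hv
      have : v ∈ (f ^ k).ker := by
        rw [LinearMap.mem_ker, hf]
        obtain ⟨j, rfl⟩ := Nat.exists_eq_add_of_le hk1
        rw [pow_add, pow_one, mul_comm, mul_smul, hv, smul_zero]
      rw [h1] at this
      exact (Submodule.mem_bot R).mp this
    by_cases h2 : (f ^ k).range = ⊥
    · right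
      refine ⟨k, fun v => ?_⟩
      have : (f ^ k) v ∈ (f ^ k).range := ⟨v, rfl⟩
      rw [h2, Submodule.mem_bot, hf] at this
      exact this
    exfalso
    obtain ⟨m1, hm1⟩ := hprop _ h1 (by
      intro g v hv
      rw [LinearMap.mem_ker, hf] at hv ⊢
      rw [← hcomm, hv, map_zero])
    obtain ⟨m2, hm2⟩ := hprop _ h2 (by
      rintro g _ ⟨v, rfl⟩
      refine ⟨ρ g v, ?_⟩
      rw [hf, hf, hcomm])
    apply hcon
    refine ⟨max m1 m2, fun g hg => ?_⟩
    ext v
    have e1 := hm1 g (derivedSeries_antitone G (le_max_left _ _) hg) v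
    have e2 := hm2 g (derivedSeries_antitone G (le_max_right _ _) hg) v
    have e3 : ρ g v - v ∈ (⊥ : Submodule R M) := by
      rw [← hk.eq_bot]
      exact ⟨e1, e2⟩
    exact sub_eq_zero.mp ((Submodule.mem_bot R).mp e3)
  set A := Module.annihilator R M with hA
  let P : Ideal R := A.radical
  have hPmem : ∀ r, r ∈ P ↔ ∃ k, ∀ v : M, r ^ k • v = 0 := by
    intro r
    change r ∈ A.radical ↔ _
    rw [Ideal.mem_radical_iff]
    constructor
    · rintro ⟨k, hk⟩
      exact ⟨k, Module.mem_annihilator.mp hk⟩
    · rintro ⟨k, hk⟩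
      exact ⟨k, Module.mem_annihilator.mpr hk⟩
  obtain ⟨k, hk⟩ := Ideal.exists_radical_pow_le_of_fg A (IsNoetherian.noetherian _)
  by_cases hPM : (P • ⊤ : Submodule R M) = ⊥
  · -- P annihilates M
    have hPA : ∀ r, r ∈ P → r ∈ A := by
      intro r hr
      rw [hA, Module.mem_annihilator]
      intro v
      have : r • v ∈ (P • ⊤ : Submodule R M) := Submodule.smul_mem_smul hr Submodule.mem_top
      rw [hPM] at this
      exact (Submodule.mem_bot R).mp this
    let _ : Module (R ⧸ A) M := Module.quotientAnnihilator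
    have hsm : ∀ (r : R) (v : M), (Ideal.Quotient.mk A r) • v = r • v := fun r v => rfl
    have hinj : ∀ r : R, r ∉ A → ∀ v : M, r • v = 0 → v = 0 := by
      intro r hr
      rcases hfit r with h | h
      · exact h
      · exact absurd (hPA r ((hPmem r).mpr h)) hr
    have hprime : A.IsPrime := by
      constructor
      · intro h
        have h1 : (1 : R) ∈ A := by rw [h]; trivial
        obtain ⟨v, hv⟩ := exists_ne (0 : M)
        apply hv
        have := Module.mem_annihilator.mp h1 v
        simpa using this
      · intro a b hab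
        by_contra hn
        push Not at hn
        obtain ⟨ha, hb⟩ := hn
        obtain ⟨v, hv⟩ := exists_ne (0 : M)
        apply hv
        apply hinj b hb
        apply hinj a ha
        rw [← mul_smul]
        exact Module.mem_annihilator.mp hab v
    have hdom : IsDomain (R ⧸ A) := Ideal.Quotient.isDomain A
    have hfin : Module.Finite (R ⧸ A) M := by
      obtain ⟨s, hs⟩ := (inferInstance : Module.Finite R M)
      refine ⟨s, ?_⟩
      rw [eq_top_iff]
      intro v _
      have hv : v ∈ Submodule.span R (s : Set M) := by rw [hs]; trivial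
      induction hv using Submodule.span_induction with
      | mem x hx => exact Submodule.subset_span hx
      | zero => exact zero_mem _
      | add x y _ _ h1 h2 => exact add_mem (h1 trivial) (h2 trivial)
      | smul r x _ h =>
        rw [← hsm]
        exact Submodule.smul_mem _ _ (h trivial)
    let ρ' : G →* Module.End (R ⧸ A) M :=
      { toFun := fun g =>
          { toFun := ρ g
            map_add' := map_add _
            map_smul' := by
              intro r v
              obtain ⟨r, rfl⟩ := Ideal.Quotient.mk_surjective r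
              rw [hsm, map_smul, RingHom.id_apply, hsm] }
        map_one' := by ext v; simp
        map_mul' := by intro a b; ext v; simp }
    obtain ⟨m, hm⟩ := domain_case (R := R ⧸ A) (M := M) (by
      intro r hr v hv
      obtain ⟨r, rfl⟩ := Ideal.Quotient.mk_surjective r
      rw [hsm] at hv
      refine hinj r ?_ v hv
      intro h
      exact hr (Ideal.Quotient.eq_zero_iff_mem.mpr h)) S hSf hS hE ρ'
    apply hcon
    refine ⟨m, fun g hg => ?_⟩
    ext v
    have := congrArg (fun f : Module.End (R ⧸ A) M => f v) (hm g hg)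
    exact this
  · -- P M is a proper invariant submodule
    have hinv : ∀ I : Ideal R, ∀ g, ∀ v ∈ (I • ⊤ : Submodule R M), ρ g v ∈ (I • ⊤ : Submodule R M) :=
      fun I g v hv => smul_top_invariant I (ρ g) v hv
    have key : ∀ i : ℕ, ∃ m, ∀ g ∈ derivedSeries G m, ∀ v,
        ρ g v - v ∈ (P ^ (i + 1) • ⊤ : Submodule R M) := by
      intro i
      induction i with
      | zero => simpa using hprop _ hPM (hinv P)
      | succ i ih =>
        obtain ⟨m, hm⟩ := ih
        refine ⟨m + 1, ?_⟩
        have hle : derivedSeries G (m + 1) ≤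
            (quoRep ρ (P ^ (i + 1 + 1) • ⊤ : Submodule R M) (hinv _)).ker := by
          rw [derivedSeries_succ, Subgroup.commutator_le]
          intro a ha b hb
          rw [quoRep_ker]
          -- (a-1)(b-1) v
          have hprod : ∀ a ∈ derivedSeries G m, ∀ b ∈ derivedSeries G m, ∀ v,
              ρ a (ρ b v - v) - (ρ b v - v) ∈ (P ^ (i + 1 + 1) • ⊤ : Submodule R M) := by
            intro a ha b hb v
            have h1 : ρ b v - v ∈ (P ^ (i + 1) • ⊤ : Submodule R M) := hm b hb v
            have h2 : (ρ a - 1) (ρ b v - v) ∈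
                Submodule.map (ρ a - 1) (P ^ (i + 1) • ⊤ : Submodule R M) := ⟨_, h1, rfl⟩
            rw [Submodule.map_smul''] at h2
            have h3 : Submodule.map (ρ a - 1) (⊤ : Submodule R M) ≤
                (P ^ (i + 1) • ⊤ : Submodule R M) := by
              rintro _ ⟨x, _, rfl⟩
              exact hm a ha x
            have h4 : P ^ (i + 1) • Submodule.map (ρ a - 1) (⊤ : Submodule R M) ≤
                (P ^ (i + 1 + 1) • ⊤ : Submodule R M) := by
              refine (Submodule.smul_mono le_rfl h3).trans ?_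
              rw [← Submodule.mul_smul, ← pow_add]
              refine Submodule.smul_mono_left ?_
              exact Ideal.pow_le_pow_right (by omega)
            exact h4 h2
          have hcm : ∀ v, ρ a (ρ b v) - ρ b (ρ a v) ∈ (P ^ (i + 1 + 1) • ⊤ : Submodule R M) := by
            intro v
            have h1 := hprod a ha b hb v
            have h2 := hprod b hb a ha v
            have h3 := Submodule.sub_mem _ h1 h2
            have h4 : ρ a (ρ b v - v) - (ρ b v - v) - (ρ b (ρ a v - v) - (ρ a v - v)) =
                ρ a (ρ b v) - ρ b (ρ a v) := by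
              rw [map_sub, map_sub]; abel
            rwa [h4] at h3
          intro v
          have h5 := hcm (ρ (b * a)⁻¹ v)
          have h6 : ρ a (ρ b (ρ (b * a)⁻¹ v)) = ρ ⁅a, b⁆ v := by
            have : ρ a * (ρ b * ρ (b * a)⁻¹) = ρ ⁅a, b⁆ := by
              rw [← map_mul, ← map_mul, commutatorElement_def]
              congr 1; group
            rw [← this]; rfl
          have h7 : ρ b (ρ a (ρ (b * a)⁻¹ v)) = v := by
            have : ρ b * (ρ a * ρ (b * a)⁻¹) = 1 := by
              rw [← map_mul, ← map_mul, ← map_one ρ]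
              congr 1; group
            have h8 := congrArg (fun f : Module.End R M => f v) this
            exact h8
          rwa [h6, h7] at h5
        intro g hg
        exact (quoRep_ker ρ _ (hinv _) g).mp (hle hg)
    obtain ⟨m, hm⟩ := key k
    apply hcon
    refine ⟨m, fun g hg => ?_⟩
    ext v
    have h1 := hm g hg v
    have h2 : (P ^ (k + 1) • ⊤ : Submodule R M) = ⊥ := by
      rw [eq_bot_iff, Submodule.smul_le]
      intro r hr x _
      have h3 : r ∈ A := hk (Ideal.pow_le_pow_right (Nat.le_succ k) hr)
      rw [Submodule.mem_bot]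
      exact Module.mem_annihilator.mp h3 x
    rw [h2] at h1
    exact sub_eq_zero.mp ((Submodule.mem_bot R).mp h1)

theorem noeth_case {R : Type u} [CommRing R] [IsNoetherianRing R] {M : Type v} [AddCommGroup M]
    [Module R M] [Module.Finite R M] {G : Type w} [Group G] (S : Set G) (hSf : S.Finite)
    (hS : Subgroup.closure S = ⊤) (hE : ∀ a ∈ S, ∃ n, LEngel n a)
    (ρ : G →* Module.End R M) : ∃ m, ∀ g ∈ derivedSeries G m, ρ g = 1 := by
  by_contra hcon
  let X : Set (Submodule R M) := {N | (∀ g, ∀ v ∈ N, ρ g v ∈ N) ∧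
    ¬ ∃ m, ∀ g ∈ derivedSeries G m, ∀ v, ρ g v - v ∈ N}
  have hX : X.Nonempty := by
    refine ⟨⊥, ?_, ?_⟩
    · intro g v hv
      rw [Submodule.mem_bot] at hv ⊢
      rw [hv, map_zero]
    · rintro ⟨m, hm⟩
      apply hcon
      refine ⟨m, fun g hg => ?_⟩
      ext v
      exact sub_eq_zero.mp ((Submodule.mem_bot R).mp (hm g hg v))
  obtain ⟨N, hN, hmax⟩ := set_has_maximal_iff_noetherian.mpr (inferInstance : IsNoetherian R M) X hX
  obtain ⟨m, hm⟩ := crit S hSf hS hE (quoRep ρ N hN.1) (by
    intro N' hN' hinv
    by_contra hn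
    apply hmax (N'.comap N.mkQ)
    · refine ⟨?_, ?_⟩
      · intro g v hv
        rw [Submodule.mem_comap] at hv ⊢
        rw [← quoRep_apply ρ N hN.1]
        exact hinv g _ hv
      · rintro ⟨m, hm⟩
        apply hn
        refine ⟨m, fun g hg v => ?_⟩
        obtain ⟨v, rfl⟩ := N.mkQ_surjective v
        rw [quoRep_apply, ← map_sub]
        exact hm g hg v
    · refine lt_of_le_of_ne ?_ ?_
      · intro x hx
        rw [Submodule.mem_comap]
        have : N.mkQ x = 0 := (Submodule.Quotient.mk_eq_zero N).mpr hx
        rw [this]; exact zero_mem _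
      · intro h
        apply hN'
        rw [eq_bot_iff]
        intro x hx
        obtain ⟨x, rfl⟩ := N.mkQ_surjective x
        have : x ∈ N := by rw [h]; exact hx
        rw [Submodule.mem_bot]
        exact (Submodule.Quotient.mk_eq_zero N).mpr this)
  apply hN.2
  refine ⟨m, fun g hg v => ?_⟩
  exact (quoRep_ker ρ N hN.1 g).mp (MonoidHom.mem_ker.mpr (hm g hg)) v

end Pool.Agent.Helper45.Eng
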