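import Pool.Agent.Helper45.Eng.Act

set_option autoImplicit false

/-!
Left Engel elements; a soluble group generated by finitely many left `n`-Engel elements is
nilpotent.
-/

namespace Pool.Agent.Helper45.Eng

universe u v

open scoped commutatorElement

/-- `a` is a left `n`-Engel element. -/
def LEngel {G : Type u} [Group G] (n : ℕ) (a : G) : Prop :=
  ∀ x : G, (fun y : G => y⁻¹ * a⁻¹ * y * a)^[n] x = 1

theorem engel_iter_map {G : Type u} [Group G] {H : Type v} [Group H] (f : G →* H) (a : G)
    (n : ℕ) (x : G) :
    f ((fun y : G => y⁻¹ * a⁻¹ * y * a)^[n] x) = (fun y : H => y⁻¹ * (f a)⁻¹ * y * f a)^[n] (f x) := by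
  induction n generalizing x with
  | zero => rfl
  | succ n ih =>
    rw [Function.iterate_succ_apply, Function.iterate_succ_apply, ih]
    simp

theorem LEngel.map {G : Type u} [Group G] {H : Type v} [Group H] {f : G →* H}
    (hf : Function.Surjective f) {n : ℕ} {a : G} (h : LEngel n a) : LEngel n (f a) := by
  intro x
  obtain ⟨y, rfl⟩ := hf x
  rw [← engel_iter_map, h y, map_one]

theorem LEngel.of_injective {G : Type u} [Group G] {H : Type v} [Group H] {f : G →* H}
    (hf : Function.Injective f) {n : ℕ} {a : G} (h : LEngel n (f a)) : LEngel n a := by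
  intro x
  apply hf
  rw [engel_iter_map, h, map_one]

theorem LEngel.mono {G : Type u} [Group G] {n m : ℕ} (hnm : n ≤ m) {a : G} (h : LEngel n a) :
    LEngel m a := by
  obtain ⟨k, rfl⟩ := Nat.exists_eq_add_of_le hnm
  intro x
  rw [Nat.add_comm, Function.iterate_add_apply, h x]
  induction k with
  | zero => rfl
  | succ k ih => rw [Function.iterate_succ_apply]; simpa using ih (by omega)

theorem LEngel.conj {G : Type u} [Group G] {n : ℕ} {a : G} (h : LEngel n a) (g : G) :
    LEngel n (g * a * g⁻¹) := by
  have := LEngel.map (f := (MulAut.conj g).toMonoidHom) (MulAut.conj g).surjective h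
  simpa using this

theorem LEngel.one {G : Type u} [Group G] {n : ℕ} (hn : 1 ≤ n) : LEngel n (1 : G) := by
  refine LEngel.mono hn ?_
  intro x
  simp

theorem solvable_aux (m : ℕ) : ∀ {G : Type u} [Group G] (S : Set G), S.Finite →
    Subgroup.closure S = ⊤ → derivedSeries G m = ⊥ → (∀ a ∈ S, ∃ n, LEngel n a) →
    Group.IsNilpotent G := by
  induction m with
  | zero =>
    intro G _ S _ _ h0 _
    rw [derivedSeries_zero] at h0
    have : Subsingleton G := by
      constructor
      intro a b
      have ha : a ∈ (⊤ : Subgroup G) := Subgroup.mem_top a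
      have hb : b ∈ (⊤ : Subgroup G) := Subgroup.mem_top b
      rw [h0, Subgroup.mem_bot] at ha hb
      rw [ha, hb]
    infer_instance
  | succ m ih =>
    intro G _ S hSf hS hd hE
    let A : Subgroup G := derivedSeries G m
    have hAn : A.Normal := derivedSeries_normal G m
    have hcomm : ∀ a ∈ A, ∀ b ∈ A, a * b = b * a := by
      intro a ha b hb
      have h1 : ⁅a, b⁆ ∈ derivedSeries G (m + 1) := by
        rw [derivedSeries_succ]
        exact Subgroup.commutator_mem_commutator ha hb
      rw [hd, Subgroup.mem_bot, commutatorElement_def] at h1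
      calc a * b = (a * b * a⁻¹ * b⁻¹) * (b * a) := by group
        _ = b * a := by rw [h1, one_mul]
    -- the quotient is nilpotent
    have hq : Group.IsNilpotent (G ⧸ A) := by
      refine ih ((QuotientGroup.mk' A) '' S) (hSf.image _) ?_ ?_ ?_
      · rw [← MonoidHom.map_closure, hS]
        exact Subgroup.map_top_of_surjective _ (QuotientGroup.mk'_surjective A)
      · rw [← map_derivedSeries_eq (QuotientGroup.mk'_surjective A)]
        rw [Subgroup.map_eq_bot_iff, QuotientGroup.ker_mk']
      · rintro _ ⟨a, ha, rfl⟩
        obtain ⟨n, hn⟩ := hE a ha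
        exact ⟨n, hn.map (QuotientGroup.mk'_surjective A)⟩
    let _ : CommGroup A :=
      { (inferInstance : Group A) with
        mul_comm := fun a b => Subtype.ext (hcomm a a.2 b b.2) }
    let ρ : G →* AddMonoid.End (Additive A) :=
      { toFun := fun g =>
          { toFun := fun a => Additive.ofMul (MulAut.conjNormal g (Additive.toMul a) : A)
            map_zero' := by
              change Additive.ofMul (MulAut.conjNormal g (1 : A)) = Additive.ofMul 1
              rw [map_one]
            map_add' := fun a b => by
              change Additive.ofMul (MulAut.conjNormal g (Additive.toMul a * Additive.toMul b : A)) = _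
              rw [map_mul]; rfl }
        map_one' := by
          ext a
          change ((MulAut.conjNormal (1 : G) (Additive.toMul a) : A) : G) = _
          simp
        map_mul' := fun g h => by
          ext a
          change ((MulAut.conjNormal (g * h) (Additive.toMul a) : A) : G) = _
          rw [map_mul]; rfl }
    have hρ : ∀ (g : G) (a : A), ρ g (Additive.ofMul a) = Additive.ofMul (MulAut.conjNormal g a) :=
      fun g a => rfl
    have hval : ∀ (g : G) (a : Additive A),
        ((Additive.toMul ((ρ g - 1) a) : A) : G) = g * (Additive.toMul a : A) * g⁻¹ *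
          ((Additive.toMul a : A) : G)⁻¹ := by
      intro g a
      have h1 : (ρ g - 1) a = ρ g a - a := rfl
      rw [h1, sub_eq_add_neg]
      change ((MulAut.conjNormal g (Additive.toMul a) * (Additive.toMul a)⁻¹ : A) : G) = _
      simp
    -- unipotence
    have hun : ∀ s ∈ S, IsNilpotent (ρ s⁻¹ - 1) := by
      intro s hs
      obtain ⟨n, hn⟩ := hE s hs
      refine ⟨n, ?_⟩
      have key : ∀ k : ℕ, ∀ a : Additive A,
          ((Additive.toMul (((ρ s⁻¹ - 1) ^ k) a) : A) : G) =
            (fun y : G => y⁻¹ * s⁻¹ * y * s)^[k] ((Additive.toMul a : A) : G) := by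
        intro k
        induction k with
        | zero => intro a; rfl
        | succ k ihk =>
          intro a
          rw [Function.iterate_succ_apply, pow_succ]
          have h2 : ((ρ s⁻¹ - 1) ^ k * (ρ s⁻¹ - 1)) a = ((ρ s⁻¹ - 1) ^ k) ((ρ s⁻¹ - 1) a) := rfl
          rw [h2, ihk, hval]
          congr 1
          have h4 : s⁻¹ * ((Additive.toMul a : A) : G) * s ∈ A := by
            have := hAn.conj_mem _ (Additive.toMul a : A).2 s⁻¹
            simpa using this
          have h5 := hcomm _ (A.inv_mem (Additive.toMul a : A).2) _ h4
          rw [inv_inv]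
          calc s⁻¹ * ((Additive.toMul a : A) : G) * s * ((Additive.toMul a : A) : G)⁻¹
              = ((Additive.toMul a : A) : G)⁻¹ * (s⁻¹ * ((Additive.toMul a : A) : G) * s) := h5.symm
            _ = ((Additive.toMul a : A) : G)⁻¹ * s⁻¹ * ((Additive.toMul a : A) : G) * s := by group
      ext a
      have := key n a
      rw [hn] at this
      exact this
    have hun2 : ∀ s ∈ S, IsNilpotent (ρ s - 1) := by
      intro s hs
      have := unip_inv ρ s⁻¹ (hun s hs)
      rwa [inv_inv] at this
    have hker : ∀ a ∈ A, ρ a = 1 := by
      intro a ha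
      ext b
      change ((MulAut.conjNormal a (Additive.toMul b) : A) : G) = _
      rw [MulAut.conjNormal_apply, hcomm a ha _ (Additive.toMul b : A).2]
      simp
    let ρ' : G ⧸ A →* AddMonoid.End (Additive A) := QuotientGroup.lift A ρ hker
    obtain ⟨N, hN⟩ := nilp_action ((QuotientGroup.mk' A) '' S) (hSf.image _)
      (by
        rw [← MonoidHom.map_closure, hS]
        exact Subgroup.map_top_of_surjective _ (QuotientGroup.mk'_surjective A))
      ρ'
      (by
        rintro _ ⟨s, hs, rfl⟩
        exact hun2 s hs)
    -- A is contained in the hypercentre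
    have hW : ∀ k : ℕ, ∀ a : A,
        (∀ l : List G, l.length = k → (l.map (fun g => ρ g - 1)).prod (Additive.ofMul a) = 0) →
        (a : G) ∈ Subgroup.upperCentralSeries G k := by
      intro k
      induction k with
      | zero =>
        intro a h
        have := h [] rfl
        have h2 : Additive.ofMul a = 0 := this
        have h3 : a = 1 := h2
        rw [h3]; simp
      | succ k ihk =>
        intro a h
        rw [Subgroup.mem_upperCentralSeries_succ_iff]
        intro y
        let b : A := Additive.toMul ((ρ y - 1) (Additive.ofMul a))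
        have hb : (b : G) ∈ Subgroup.upperCentralSeries G k := by
          apply ihk
          intro l hl
          have := h (l ++ [y]) (by simp [hl])
          rw [List.map_append, List.prod_append, List.map_singleton, List.prod_singleton] at this
          exact this
        have hb2 : (b : G) = y * (a : G) * y⁻¹ * (a : G)⁻¹ := hval y (Additive.ofMul a)
        have h6 : ⁅(a : G), y⁆ = (b : G)⁻¹ := by
          rw [hb2, commutatorElement_def]; group
        rw [h6]
        exact Subgroup.inv_mem _ hb
    have hAZ : A ≤ Subgroup.upperCentralSeries G N := by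
      intro a ha
      refine hW N ⟨a, ha⟩ ?_
      intro l hl
      have := hN (l.map (fun g => ρ g - 1)) (by simpa using hl) (by
        intro x hx
        obtain ⟨g, _, rfl⟩ := List.mem_map.mp hx
        exact ⟨QuotientGroup.mk' A g, rfl⟩)
      rw [this]; rfl
    obtain ⟨c, hc⟩ := Subgroup.nilpotent_iff_lowerCentralSeries.mp hq
    have hcA : (⊤ : Subgroup G).lowerCentralSeries c ≤ A := by
      have h1 := Subgroup.map_lowerCentralSeries (⊤ : Subgroup G) (QuotientGroup.mk' A) c
      rw [Subgroup.map_top_of_surjective _ (QuotientGroup.mk'_surjective A), hc,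
        Subgroup.map_eq_bot_iff, QuotientGroup.ker_mk'] at h1
      exact h1
    have hdesc : ∀ j ≤ N, (⊤ : Subgroup G).lowerCentralSeries (c + j) ≤
        Subgroup.upperCentralSeries G (N - j) := by
      intro j
      induction j with
      | zero => intro _; exact hcA.trans hAZ
      | succ j ihj =>
        intro hj
        have h1 := ihj (by omega)
        have h2 : N - j = (N - (j + 1)) + 1 := by omega
        rw [h2] at h1
        rw [← Nat.add_assoc, Subgroup.lowerCentralSeries_succ]
        exact (Subgroup.commutator_mono h1 le_rfl).trans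
          (Subgroup.commutator_upperCentralSeries_top_le G _)
    rw [Subgroup.nilpotent_iff_lowerCentralSeries]
    refine ⟨c + N, ?_⟩
    have := hdesc N le_rfl
    rw [Nat.sub_self, Subgroup.upperCentralSeries_zero] at this
    exact le_bot_iff.mp this

/-- A soluble group generated by finitely many left Engel elements (of bounded index each) is
nilpotent. -/
theorem nilpotent_of_solvable {G : Type u} [Group G] [Group.IsSolvable G] (S : Set G)
    (hSf : S.Finite) (hS : Subgroup.closure S = ⊤) (hE : ∀ a ∈ S, ∃ n, LEngel n a) :
    Group.IsNilpotent G := by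
  obtain ⟨m, hm⟩ := (inferInstance : Group.IsSolvable G).solvable
  exact solvable_aux m S hSf hS hm hE

end Pool.Agent.Helper45.Eng
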